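import Mathlib

set_option autoImplicit false
set_option maxHeartbeats 1000000

open MvPolynomial

namespace Pool.Agent.LibKplane

variable {F : Type*} [Field F] {σ τ : Type*}

/-- Translation by `a`. -/
noncomputable def shift (a : σ → F) : MvPolynomial σ F →ₐ[F] MvPolynomial σ F :=
  aeval (fun i => X i + C (a i))

/-- `Q` vanishes at `a` to order at least `M`. -/
def Van (M : ℕ) (a : σ → F) (Q : MvPolynomial σ F) : Prop :=
  ∀ β : σ →₀ ℕ, β.degree < M → coeff β (shift a Q) = 0

lemma van_iff {M : ℕ} {a : σ → F} {Q : MvPolynomial σ F} :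
    Van M a Q ↔ shift a Q ∈ idealOfVars σ F ^ M := by
  rw [mem_pow_idealOfVars_iff']
  rfl

lemma shift_X (a : σ → F) (i : σ) : shift a (X i) = X i + C (a i) := by simp [shift]

lemma shift_shift (a b : σ → F) (Q : MvPolynomial σ F) :
    shift a (shift b Q) = shift (a + b) Q := by
  have : (shift a).comp (shift b) = shift (F := F) (a + b) := by
    apply algHom_ext
    intro i
    simp [shift]
    ring
  exact DFunLike.congr_fun this Q

lemma shift_zero (Q : MvPolynomial σ F) : shift (0 : σ → F) Q = Q := by
  have : shift (0 : σ → F) = AlgHom.id F _ := by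
    apply algHom_ext
    intro i
    simp [shift]
  rw [this]; rfl

lemma line_van {A : Type*} [CommRing A] [Algebra F A] {P : MvPolynomial τ F} {v : τ → F} {r : ℕ}
    (h : Van r v P) (Φ : MvPolynomial τ F →ₐ[F] A) (J : Ideal A)
    (hΦ : ∀ i, Φ (X i) - algebraMap F A (v i) ∈ J) : Φ P ∈ J ^ r := by
  have h1 : P = shift (-v) (shift v P) := by
    rw [shift_shift, neg_add_cancel, shift_zero]
  have h2 : (idealOfVars τ F).map (Φ.comp (shift (-v))) ≤ J := by
    rw [Ideal.map_span, Ideal.span_le]
    rintro _ ⟨_, ⟨i, rfl⟩, rfl⟩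
    have : (Φ.comp (shift (-v))) (X i) = Φ (X i) - algebraMap F A (v i) := by
      simp only [AlgHom.comp_apply, shift_X, map_add, Pi.neg_apply, map_neg]
      rw [← MvPolynomial.algebraMap_eq, AlgHom.commutes]
      ring
    simp only [SetLike.mem_coe]
    rw [this]
    exact hΦ i
  have h3 := van_iff.1 h
  have h4 : (Φ.comp (shift (-v))) (shift v P) ∈ ((idealOfVars τ F) ^ r).map (Φ.comp (shift (-v))) :=
    Ideal.mem_map_of_mem _ h3
  rw [Ideal.map_pow] at h4
  have h5 := Ideal.pow_right_mono h2 r h4
  rw [AlgHom.comp_apply, ← h1] at h5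
  exact h5

/-! ### Swapping the variables -/

/-- `F[z][t] → F[t][z]`. -/
noncomputable def swap : Polynomial (MvPolynomial σ F) →+* MvPolynomial σ (Polynomial F) :=
  Polynomial.eval₂RingHom (MvPolynomial.map (Polynomial.C : F →+* Polynomial F)) (C Polynomial.X)

lemma coeff_swap (G : Polynomial (MvPolynomial σ F)) (β : σ →₀ ℕ) (j : ℕ) :
    (coeff β (swap G)).coeff j = coeff β (G.coeff j) := by
  classical
  induction G using Polynomial.induction_on' with
  | add p q hp hq => simp [map_add, hp, hq]
  | monomial n a =>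
    simp only [swap, Polynomial.coe_eval₂RingHom, Polynomial.eval₂_monomial]
    rw [← map_pow, mul_comm, coeff_C_mul, coeff_map, Polynomial.coeff_monomial]
    rw [mul_comm, Polynomial.coeff_C_mul, Polynomial.coeff_X_pow]
    by_cases h : j = n
    · simp [h]
    · rw [if_neg h, if_neg (fun h' => h h'.symm)]
      simp

lemma swap_X : swap (Polynomial.X : Polynomial (MvPolynomial σ F)) = C Polynomial.X := by
  simp [swap]

lemma swap_C (a : MvPolynomial σ F) : swap (Polynomial.C a) = MvPolynomial.map Polynomial.C a := by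
  simp [swap]

/-! ### Membership in powers of `(t - t0, z)` -/

section

variable {A : Type*} [CommRing A]

/-- The ideal of all `H ∈ A[z]` with `p^(r-|β|) ∣ coeff β H` -/
def divIdeal (p : A) (r : ℕ) : Ideal (MvPolynomial σ A) where
  carrier := {H | ∀ β : σ →₀ ℕ, p ^ (r - β.degree) ∣ coeff β H}
  zero_mem' := by intro β; simp
  add_mem' := by
    intro a b ha hb β
    rw [coeff_add]
    exact dvd_add (ha β) (hb β)
  smul_mem' := by
    classical
    intro c H hH β
    rw [smul_eq_mul, coeff_mul]
    apply Finset.dvd_sum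
    rintro ⟨x, y⟩ hxy
    rw [Finset.HasAntidiagonal.mem_antidiagonal] at hxy
    have h1 : y.degree ≤ β.degree := by
      rw [← hxy, map_add]; simp
    exact Dvd.dvd.mul_left ((pow_dvd_pow p (Nat.sub_le_sub_left h1 r)).trans (hH y)) _

lemma mem_divIdeal {p : A} {r : ℕ} {H : MvPolynomial σ A} :
    H ∈ divIdeal p r ↔ ∀ β : σ →₀ ℕ, p ^ (r - β.degree) ∣ coeff β H := Iff.rfl

lemma pow_le_divIdeal (p : A) (r : ℕ) :
    (Ideal.span (insert (C p) (Set.range (X : σ → MvPolynomial σ A)))) ^ r ≤ divIdeal p r := by
  classical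
  induction r with
  | zero =>
    intro H _ β
    simp
  | succ r ih =>
    rw [pow_succ']
    refine (Ideal.mul_mono_right ih).trans ?_
    rw [Ideal.mul_le]
    intro a ha b hb
    revert b
    refine Submodule.span_induction (p := fun a _ => ∀ b ∈ divIdeal (σ := σ) p r, a * b ∈ divIdeal p (r + 1))
      ?_ ?_ ?_ ?_ ha
    · rintro x (rfl | ⟨i, rfl⟩) b hb β
      · rw [coeff_C_mul]
        have h1 : p ^ (r + 1 - β.degree) ∣ p * p ^ (r - β.degree) := by
          rw [← pow_succ']
          apply pow_dvd_pow
          omega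
        exact h1.trans (mul_dvd_mul_left p (hb β))
      · rw [coeff_X_mul']
        split_ifs with h
        · have h2 : (β - Finsupp.single i 1).degree + 1 = β.degree := by
            have h3 : β = (β - Finsupp.single i 1) + Finsupp.single i 1 := by
              rw [tsub_add_cancel_of_le]
              rw [Finsupp.single_le_iff]
              rw [Finsupp.mem_support_iff] at h
              omega
            conv_rhs => rw [h3]
            rw [map_add]
            simp
          have h4 := hb (β - Finsupp.single i 1)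
          have h5 : r - (β - Finsupp.single i 1).degree = r + 1 - β.degree := by omega
          rw [h5] at h4
          exact h4
        · exact dvd_zero _
    · intro b _; simp
    · intro x y _ _ hx hy b hb
      rw [add_mul]
      exact Ideal.add_mem _ (hx b hb) (hy b hb)
    · intro a x _ hx b hb
      rw [smul_eq_mul, mul_assoc]
      exact Ideal.mul_mem_left _ _ (hx b hb)

end

/-- The ideal `(t - t0, z)` of `F[z][t]`. -/
noncomputable def lineIdeal (σ : Type*) (t0 : F) : Ideal (Polynomial (MvPolynomial σ F)) :=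
  Ideal.span (insert (Polynomial.X - Polynomial.C (C t0))
    (Set.range (fun i : σ => Polynomial.C (X i))))

lemma dvd_of_mem_lineIdeal_pow {G : Polynomial (MvPolynomial σ F)} {t0 : F} {r : ℕ}
    (h : G ∈ lineIdeal σ t0 ^ r) (β : σ →₀ ℕ) :
    (Polynomial.X - Polynomial.C t0) ^ (r - β.degree) ∣ coeff β (swap G) := by
  have h1 : (lineIdeal σ t0).map (swap (F := F) (σ := σ)) ≤
      Ideal.span (insert (C (Polynomial.X - Polynomial.C t0)) (Set.range X)) := by
    rw [lineIdeal, Ideal.map_span, Ideal.span_le]
    rintro _ ⟨x, (rfl | ⟨i, rfl⟩), rfl⟩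
    · have e : swap (Polynomial.X - Polynomial.C (C t0) : Polynomial (MvPolynomial σ F)) =
          C (Polynomial.X - Polynomial.C t0) := by
        rw [RingHom.map_sub, swap_X, swap_C, MvPolynomial.map_C, RingHom.map_sub]
      rw [e]
      exact Ideal.subset_span (Or.inl rfl)
    · simp only [swap_C, MvPolynomial.map_X]
      exact Ideal.subset_span (Or.inr ⟨i, rfl⟩)
  have h2 : swap G ∈ ((lineIdeal σ t0) ^ r).map (swap (F := F) (σ := σ)) :=
    Ideal.mem_map_of_mem _ h
  rw [Ideal.map_pow] at h2
  have h3 := Ideal.pow_right_mono h1 r h2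
  exact pow_le_divIdeal _ _ h3 β

/-- The line lemma. -/
lemma line_lemma [Fintype F] (G : Polynomial (MvPolynomial σ F)) (D : ℕ) (hG : G.natDegree ≤ D)
    (r : F → ℕ) (hr : ∀ t0, G ∈ lineIdeal σ t0 ^ r t0) (β : σ →₀ ℕ)
    (hβ : D < ∑ t0, (r t0 - β.degree)) (j : ℕ) : coeff β (G.coeff j) = 0 := by
  classical
  have h1 : (∏ t0 : F, (Polynomial.X - Polynomial.C t0) ^ (r t0 - β.degree)) ∣
      coeff β (swap G) := by
    apply Finset.prod_dvd_of_coprime
    · intro a _ b _ hab
      apply IsCoprime.pow
      exact Polynomial.isCoprime_X_sub_C_of_isUnit_sub (sub_ne_zero.2 hab).isUnit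
    · intro t0 _
      exact dvd_of_mem_lineIdeal_pow (hr t0) β
  have h2 : (coeff β (swap G)).natDegree ≤ D := by
    rw [Polynomial.natDegree_le_iff_coeff_eq_zero]
    intro N hN
    rw [coeff_swap, Polynomial.coeff_eq_zero_of_natDegree_lt (lt_of_le_of_lt hG hN)]
    simp
  have h3 : (∏ t0 : F, (Polynomial.X - Polynomial.C t0) ^ (r t0 - β.degree)).natDegree =
      ∑ t0, (r t0 - β.degree) := by
    rw [Polynomial.natDegree_prod_of_monic]
    · apply Finset.sum_congr rfl
      intro t0 _
      rw [Polynomial.natDegree_pow, Polynomial.natDegree_X_sub_C, mul_one]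
    · intro t0 _
      exact (Polynomial.monic_X_sub_C t0).pow _
  have h4 : coeff β (swap G) = 0 := by
    by_contra hne
    have := Polynomial.natDegree_le_of_dvd h1 hne
    omega
  rw [← coeff_swap, h4]
  simp

end Pool.Agent.LibKplane
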