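import Mathlib
import Pool.Agent.LibKplane.Mult

set_option autoImplicit false
set_option maxHeartbeats 1000000

open MvPolynomial

namespace Pool.Agent.LibKplane

variable {F : Type*} [Field F]

/-- Schwartz–Zippel lemma with multiplicities. -/
lemma sz [Fintype F] (m : ℕ) : ∀ (M : ℕ) (Q : MvPolynomial (Fin m) F), (∀ a, Van M a Q) →
    Q.totalDegree < M * Fintype.card F → Q = 0 := by
  classical
  induction m with
  | zero =>
    intro M Q hv hd
    have hM : 0 < M := by
      rcases Nat.eq_zero_or_pos M with h | h
      · subst h; simp at hd
      · exact h
    rw [MvPolynomial.eq_C_of_isEmpty Q]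
    have h1 := hv 0 0 (by simpa using hM)
    rw [shift_zero] at h1
    rw [h1, C_0]
  | succ m ih =>
    intro M Q hv hd
    by_contra hQ
    set q := Fintype.card F with hq
    have hqpos : 0 < q := Fintype.card_pos
    set G0 := finSuccEquiv F m Q with hG0
    have hG0ne : G0 ≠ 0 := by
      intro h
      apply hQ
      have := (finSuccEquiv F m).injective (h.trans (map_zero _).symm)
      exact this
    set t := G0.natDegree with ht
    have hlead : G0.coeff t ≠ 0 := by
      rw [ht, Polynomial.coeff_natDegree]
      exact Polynomial.leadingCoeff_ne_zero.2 hG0ne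
    have htd : (G0.coeff t).totalDegree + t ≤ Q.totalDegree :=
      totalDegree_coeff_finSuccEquiv_add_le Q t hlead
    apply hlead
    apply ih (M - t / q)
    · intro a' β hβ
      set Φ : MvPolynomial (Fin (m + 1)) F →ₐ[F] Polynomial (MvPolynomial (Fin m) F) :=
        (Polynomial.mapAlgHom (shift a')).comp (finSuccEquiv F m : _ →ₐ[F] _) with hΦ
      have hΦQ : Φ Q = G0.map (shift a' : MvPolynomial (Fin m) F →+* MvPolynomial (Fin m) F) := by
        rfl
      have key := line_lemma (Φ Q) t (by rw [hΦQ]; exact Polynomial.natDegree_map_le)
        (fun _ => M) (fun t0 => by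
          apply line_van (hv (Fin.cons t0 a')) Φ
          intro i
          refine Fin.cases ?_ (fun i => ?_) i
          · have : Φ (X 0) = Polynomial.X := by
              change Polynomial.map (shift a' : MvPolynomial (Fin m) F →+* MvPolynomial (Fin m) F) (MvPolynomial.finSuccEquiv F m (X 0)) = _
              rw [MvPolynomial.finSuccEquiv_X_zero, Polynomial.map_X]
            rw [this]
            exact Ideal.subset_span (Or.inl rfl)
          · have : Φ (X i.succ) = Polynomial.C (X i + C (a' i)) := by
              change Polynomial.map (shift a' : MvPolynomial (Fin m) F →+* MvPolynomial (Fin m) F) (MvPolynomial.finSuccEquiv F m (X i.succ)) = _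
              rw [MvPolynomial.finSuccEquiv_X_succ, Polynomial.map_C]
              simp [shift_X]
            rw [this]
            have e : (Polynomial.C (X i + C (a' i)) : Polynomial (MvPolynomial (Fin m) F)) -
                algebraMap F _ ((Fin.cons t0 a' : Fin (m+1) → F) i.succ) = Polynomial.C (X i) := by
              have : algebraMap F (Polynomial (MvPolynomial (Fin m) F))
                ((Fin.cons t0 a' : Fin (m+1) → F) i.succ) = Polynomial.C (C (a' i)) := rfl
              rw [this, Polynomial.C_add, add_sub_cancel_right]
            rw [e]
            exact Ideal.subset_span (Or.inr ⟨i, rfl⟩)) β (by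
          simp only [Finset.sum_const, Finset.card_univ, smul_eq_mul]
          rw [← hq]
          have h1 : t / q < M - β.degree := by omega
          rw [Nat.div_lt_iff_lt_mul hqpos] at h1
          rw [mul_comm]; exact h1) t
      rw [hΦQ, Polynomial.coeff_map] at key
      exact key
    · rw [Nat.sub_mul]
      have h1 : t / q * q ≤ t := Nat.div_mul_le_self t q
      omega

end Pool.Agent.LibKplane
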