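import Mathlib
import Pool.Agent.LibKplane.SZ

set_option autoImplicit false
set_option maxHeartbeats 1000000

open MvPolynomial Module

namespace Pool.Agent.LibKplane

lemma finrank_add_card_le {K V ι : Type*} [Field K] [AddCommGroup V] [Module K V]
    [FiniteDimensional K V] [Fintype ι] (W : Submodule K V) (f : ι → Dual K V)
    (hf : LinearIndependent K f) (h : ∀ i, ∀ x ∈ W, f i x = 0) :
    finrank K W + Fintype.card ι ≤ finrank K V := by
  have h1 := Subspace.finrank_add_finrank_dualAnnihilator_eq W
  let g : ι → W.dualAnnihilator := fun i => ⟨f i, by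
    rw [Submodule.mem_dualAnnihilator]
    exact fun x hx => h i x hx⟩
  have hg : LinearIndependent K g := by
    apply LinearIndependent.of_comp W.dualAnnihilator.subtype
    exact hf
  have h2 := hg.fintype_card_le_finrank
  omega

variable {F : Type*} [Field F]

lemma totalDegree_shift_le {m : ℕ} (c : Fin m → F) (Q : MvPolynomial (Fin m) F) :
    (shift c Q).totalDegree ≤ Q.totalDegree := by
  classical
  rw [shift, aeval_def, eval₂_eq']
  apply totalDegree_finsetSum_le
  intro β hβ
  refine (totalDegree_mul _ _).trans ?_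
  have h1 : (algebraMap F (MvPolynomial (Fin m) F) (coeff β Q)).totalDegree = 0 := by
    rw [MvPolynomial.algebraMap_eq]; exact totalDegree_C _
  rw [h1, zero_add]
  refine (totalDegree_finsetProd _ _).trans ?_
  have h2 : ∑ i : Fin m, ((X i + C (c i) : MvPolynomial (Fin m) F) ^ β i).totalDegree ≤
      ∑ i : Fin m, β i := by
    apply Finset.sum_le_sum
    intro i _
    refine (totalDegree_pow _ _).trans ?_
    have h3 : (X i + C (c i) : MvPolynomial (Fin m) F).totalDegree ≤ 1 := by
      refine (totalDegree_add _ _).trans ?_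
      rw [totalDegree_X, totalDegree_C]; simp
    calc β i * _ ≤ β i * 1 := Nat.mul_le_mul_left _ h3
      _ = β i := mul_one _
  refine h2.trans ?_
  have h4 := le_totalDegree hβ
  rw [Finsupp.sum_fintype _ _ (fun _ => rfl)] at h4
  exact h4

/-- The polynomials of degree at most `d`. -/
noncomputable abbrev PolyD (F : Type*) [Field F] (m d : ℕ) : Submodule F (MvPolynomial (Fin m) F) :=
  restrictTotalDegree (Fin m) F d

lemma PolyD_deg {m d : ℕ} (Q : PolyD F m d) : (Q : MvPolynomial (Fin m) F).totalDegree ≤ d :=
  (mem_restrictTotalDegree _ _ _).1 Q.2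

/-- The polynomials of degree at most `d` that vanish to order at least `M` at all points of `Ω`. -/
noncomputable def vanSub {m : ℕ} (d M : ℕ) (Ω : Finset (Fin m → F)) :
    Submodule F (PolyD F m d) where
  carrier := {Q | ∀ s ∈ Ω, Van M s (Q : MvPolynomial (Fin m) F)}
  zero_mem' := by
    intro s _ β _
    simp
  add_mem' := by
    intro a b ha hb s hs β hβ
    have h1 := ha s hs β hβ
    have h2 := hb s hs β hβ
    simp only [Submodule.coe_add, map_add, coeff_add, h1, h2, add_zero]
  smul_mem' := by
    intro c a ha s hs β hβ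
    have h1 := ha s hs β hβ
    simp only [Submodule.coe_smul, map_smul, coeff_smul, h1, smul_zero]

lemma finrank_vanSub [Fintype F] {m : ℕ} (d M : ℕ) (hM : d < M * Fintype.card F)
    (Ω : Finset (Fin m → F)) :
    (Fintype.card F) ^ m * finrank F (vanSub d M Ω) +
      Ω.card * finrank F (PolyD F m d) ≤
      (Fintype.card F) ^ m * finrank F (PolyD F m d) := by
  classical
  let φ : (Fin m → F) × {β : Fin m →₀ ℕ // β.degree < M} → Dual F (PolyD F m d) := fun i =>
    ((lcoeff F i.2.1).comp (shift i.1).toLinearMap).comp (PolyD F m d).subtype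
  have hφ : ∀ i (Q : (PolyD F m d)), φ i Q = coeff i.2.1 (shift i.1 (Q : MvPolynomial (Fin m) F)) := by
    intro i Q; rfl
  obtain ⟨κ, a, ha, hspan, hli⟩ := exists_linearIndependent' (K := F) φ
  have : Finite κ := hli.finite_of_isNoetherian
  have : Fintype κ := Fintype.ofFinite κ
  -- translations
  let τ : (Fin m → F) → (PolyD F m d) →ₗ[F] (PolyD F m d) := fun c =>
    ((shift c).toLinearMap.comp (PolyD F m d).subtype).codRestrict (PolyD F m d) (fun Q => by
      rw [mem_restrictTotalDegree]
      exact (totalDegree_shift_le c _).trans (PolyD_deg Q))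
  have hτ : ∀ c (Q : (PolyD F m d)), ((τ c Q : (PolyD F m d)) : MvPolynomial (Fin m) F) = shift c (Q : MvPolynomial (Fin m) F) :=
    fun c Q => rfl
  have hτsurj : ∀ c, Function.Surjective (τ c) := by
    intro c Q
    refine ⟨τ (-c) Q, ?_⟩
    apply Subtype.ext
    rw [hτ, hτ, shift_shift, add_neg_cancel, shift_zero]
  -- N ≤ |κ|
  have hN : finrank F (PolyD F m d) ≤ Fintype.card κ := by
    let L : (PolyD F m d) →ₗ[F] (κ → F) := LinearMap.pi (fun k => φ (a k))
    have hL : Function.Injective L := by
      rw [← LinearMap.ker_eq_bot, LinearMap.ker_eq_bot']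
      intro Q hQ
      have h1 : ∀ k, φ (a k) Q = 0 := fun k => congrFun hQ k
      have h2 : ∀ i, φ i Q = 0 := by
        intro i
        have h3 : φ i ∈ Submodule.span F (Set.range (φ ∘ a)) := by
          rw [hspan]; exact Submodule.subset_span ⟨i, rfl⟩
        have h4 : ∀ f ∈ Submodule.span F (Set.range (φ ∘ a)), f Q = 0 := by
          intro f hf
          refine Submodule.span_induction (p := fun f _ => f Q = 0) ?_ ?_ ?_ ?_ hf
          · rintro _ ⟨k, rfl⟩; exact h1 k
          · rfl
          · intro x y _ _ hx hy
            rw [LinearMap.add_apply, hx, hy, add_zero]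
          · intro c x _ hx
            rw [LinearMap.smul_apply, hx, smul_zero]
        exact h4 _ h3
      have h5 : ∀ s, Van M s (Q : MvPolynomial (Fin m) F) := by
        intro s β hβ
        exact h2 (s, ⟨β, hβ⟩)
      have h7 := sz m M (Q : MvPolynomial (Fin m) F) h5 (lt_of_le_of_lt (PolyD_deg Q) hM)
      exact Subtype.ext h7
    have := LinearMap.finrank_le_finrank_of_injective hL
    rwa [finrank_fintype_fun_eq_card] at this
  -- for each translation
  have key : ∀ c : Fin m → F, finrank F (vanSub d M Ω) +
      (Finset.univ.filter (fun k : κ => (a k).1 + c ∈ Ω)).card ≤ finrank F (PolyD F m d) := by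
    intro c
    let ψ : κ → Dual F (PolyD F m d) := fun k => (φ (a k)).comp (τ c)
    have hψ : LinearIndependent F ψ := by
      have := hli.map' ((τ c).dualMap) (by
        rw [LinearMap.ker_eq_bot]
        exact LinearMap.dualMap_injective_of_surjective (hτsurj c))
      exact this
    have hψ' : LinearIndependent F (fun k : {k : κ // (a k).1 + c ∈ Ω} => ψ k.1) :=
      hψ.comp _ Subtype.val_injective
    have h1 := finrank_add_card_le (vanSub d M Ω) _ hψ' (by
      rintro ⟨k, hk⟩ Q hQ
      have h2 : ψ k Q = coeff (a k).2.1 (shift ((a k).1 + c) (Q : MvPolynomial (Fin m) F)) := by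
        change φ (a k) (τ c Q) = _
        rw [hφ, hτ, shift_shift]
      simp only
      rw [h2]
      exact hQ _ hk _ (a k).2.2)
    rwa [Fintype.card_subtype] at h1
  have hsum := Finset.sum_le_sum (fun c (_ : c ∈ (Finset.univ : Finset (Fin m → F))) => key c)
  rw [Finset.sum_add_distrib] at hsum
  simp only [Finset.sum_const, Finset.card_univ, Fintype.card_fun, Fintype.card_fin,
    smul_eq_mul] at hsum
  have h8 : ∑ c : Fin m → F, (Finset.univ.filter (fun k : κ => (a k).1 + c ∈ Ω)).card =
      Fintype.card κ * Ω.card := by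
    simp only [Finset.card_filter]
    rw [Finset.sum_comm]
    have : ∀ k : κ, ∑ c : Fin m → F, (if (a k).1 + c ∈ Ω then 1 else 0) = Ω.card := by
      intro k
      rw [← Finset.card_filter]
      apply Finset.card_bij' (fun c _ => (a k).1 + c) (fun s _ => s - (a k).1)
      · intro c hc; simpa using hc
      · intro s hs; simpa using hs
      · intro c _; simp
      · intro s _; simp
    rw [Finset.sum_congr rfl (fun k _ => this k)]
    simp
  rw [h8] at hsum
  have h9 : Ω.card * finrank F (PolyD F m d) ≤ Fintype.card κ * Ω.card := by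
    rw [mul_comm]; exact Nat.mul_le_mul_right _ hN
  omega

end Pool.Agent.LibKplane
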