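import Mathlib
import Pool.Agent.LibKplane.Dim

set_option autoImplicit false
set_option maxHeartbeats 1000000

open MvPolynomial Module

namespace Pool.Agent.LibKplane

section
variable {R : Type*} [CommRing R]

/-- `p` has degree at most `d`, with coefficient `r` at `d`. -/
def TopIs (p : Polynomial R) (d : ℕ) (r : R) : Prop := p.natDegree ≤ d ∧ p.coeff d = r

lemma TopIs.mul {p q : Polynomial R} {d e : ℕ} {r s : R} (hp : TopIs p d r) (hq : TopIs q e s) :
    TopIs (p * q) (d + e) (r * s) := by
  refine ⟨Polynomial.natDegree_mul_le.trans (Nat.add_le_add hp.1 hq.1), ?_⟩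
  rw [Polynomial.coeff_mul_add_eq_of_natDegree_le hp.1 hq.1, hp.2, hq.2]

lemma TopIs.one : TopIs (1 : Polynomial R) 0 1 := ⟨by simp, by simp⟩

lemma TopIs.pow {p : Polynomial R} {r : R} (hp : TopIs p 1 r) (k : ℕ) :
    TopIs (p ^ k) k (r ^ k) := by
  induction k with
  | zero => simpa using TopIs.one
  | succ k ih => rw [pow_succ, pow_succ]; exact ih.mul hp

lemma TopIs.prod {ι : Type*} (S : Finset ι) (p : ι → Polynomial R) (d : ι → ℕ) (r : ι → R)
    (h : ∀ i ∈ S, TopIs (p i) (d i) (r i)) : TopIs (∏ i ∈ S, p i) (∑ i ∈ S, d i) (∏ i ∈ S, r i) := by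
  classical
  induction S using Finset.induction_on with
  | empty => simpa using TopIs.one
  | insert a S ha ih =>
    rw [Finset.prod_insert ha, Finset.sum_insert ha, Finset.prod_insert ha]
    exact (h a (Finset.mem_insert_self _ _)).mul (ih (fun i hi => h i (Finset.mem_insert_of_mem hi)))

lemma TopIs.add {p q : Polynomial R} {d : ℕ} {r s : R} (hp : TopIs p d r) (hq : TopIs q d s) :
    TopIs (p + q) d (r + s) :=
  ⟨(Polynomial.natDegree_add_le _ _).trans (max_le hp.1 hq.1), by
    rw [Polynomial.coeff_add, hp.2, hq.2]⟩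

lemma TopIs.sum {ι : Type*} (S : Finset ι) (p : ι → Polynomial R) (d : ℕ) (r : ι → R)
    (h : ∀ i ∈ S, TopIs (p i) d (r i)) : TopIs (∑ i ∈ S, p i) d (∑ i ∈ S, r i) := by
  classical
  induction S using Finset.induction_on with
  | empty => simp only [Finset.sum_empty]; exact ⟨by simp, by simp⟩
  | insert a S ha ih =>
    rw [Finset.sum_insert ha, Finset.sum_insert ha]
    exact (h a (Finset.mem_insert_self _ _)).add (ih (fun i hi => h i (Finset.mem_insert_of_mem hi)))

end

variable {F : Type*} [Field F]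

/-- Homogenisation to degree `d`. -/
noncomputable def hom (m d : ℕ) : MvPolynomial (Fin m) F →ₗ[F] MvPolynomial (Fin (m + 1)) F :=
  (basisMonomials (Fin m) F).constr F
    (fun β => X 0 ^ (d - β.degree) * ∏ i : Fin m, X i.succ ^ β i)

lemma hom_monomial (m d : ℕ) (β : Fin m →₀ ℕ) :
    hom (F := F) m d (monomial β 1) = X 0 ^ (d - β.degree) * ∏ i : Fin m, X i.succ ^ β i := by
  have := (basisMonomials (Fin m) F).constr_basis F
    (fun β => (X 0 ^ (d - β.degree) * ∏ i : Fin m, X i.succ ^ β i : MvPolynomial (Fin (m + 1)) F)) β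
  rw [coe_basisMonomials] at this
  exact this

/-- Restriction to a bundle of lines. -/
noncomputable def Phi {m : ℕ} (b s : Fin m → F) :
    MvPolynomial (Fin (m + 1)) F →ₐ[F] Polynomial (MvPolynomial (Fin m) F) :=
  aeval (Fin.cons Polynomial.X (fun i =>
    Polynomial.C (C (b i)) + Polynomial.X * Polynomial.C (X i + C (s i))))

lemma Phi_zero {m : ℕ} (b s : Fin m → F) : Phi b s (X 0) = Polynomial.X := by
  simp [Phi]

lemma Phi_succ {m : ℕ} (b s : Fin m → F) (i : Fin m) : Phi b s (X i.succ) =
    Polynomial.C (C (b i)) + Polynomial.X * Polynomial.C (X i + C (s i)) := by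
  rw [Phi, aeval_X, Fin.cons_succ]

lemma Phi_hom {m : ℕ} (b s : Fin m → F) (d : ℕ) (Q : MvPolynomial (Fin m) F)
    (hQ : Q.totalDegree ≤ d) : TopIs (Phi b s (hom m d Q)) d (shift s Q) := by
  classical
  rw [← mem_restrictTotalDegree, restrictTotalDegree, restrictSupport_eq_span] at hQ
  refine Submodule.span_induction
    (p := fun Q _ => TopIs (Phi b s (hom m d Q)) d (shift s Q)) ?_ ?_ ?_ ?_ hQ
  · rintro _ ⟨β, hβ, rfl⟩
    have hβ' : β.degree ≤ d := by
      simpa [Finsupp.degree_eq_sum, Finsupp.sum_fintype] using hβ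
    simp only
    rw [hom_monomial, map_mul, map_pow, map_prod, Phi_zero]
    have h1 : shift s (monomial β (1 : F)) = ∏ i : Fin m, (X i + C (s i)) ^ β i := by
      rw [shift, aeval_monomial, map_one, one_mul, Finsupp.prod_fintype _ _ (fun _ => pow_zero _)]
    rw [h1]
    have h2 : TopIs ((Polynomial.X : Polynomial (MvPolynomial (Fin m) F)) ^ (d - β.degree))
        (d - β.degree) 1 := by
      have : TopIs (Polynomial.X : Polynomial (MvPolynomial (Fin m) F)) 1 1 :=
        ⟨Polynomial.natDegree_X_le, Polynomial.coeff_X_one⟩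
      simpa using this.pow (d - β.degree)
    have h3 : TopIs (∏ i : Fin m, Phi b s (X i.succ ^ β i)) (∑ i, β i)
        (∏ i : Fin m, (X i + C (s i)) ^ β i) := by
      apply TopIs.prod
      intro i _
      rw [map_pow, Phi_succ]
      apply TopIs.pow
      refine ⟨?_, ?_⟩
      · refine (Polynomial.natDegree_add_le _ _).trans (max_le ?_ ?_)
        · rw [Polynomial.natDegree_C]; exact Nat.zero_le _
        · refine Polynomial.natDegree_mul_le.trans ?_
          rw [Polynomial.natDegree_C, Polynomial.natDegree_X]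
      · simp [Polynomial.coeff_C]
    have h4 := h2.mul h3
    rw [one_mul] at h4
    have h5 : d - β.degree + ∑ i, β i = d := by
      rw [← Finsupp.degree_eq_sum]; omega
    rw [h5] at h4
    exact h4
  · simp only [map_zero]; exact ⟨by simp, by simp⟩
  · intro x y _ _ hx hy
    simp only [map_add]
    exact hx.add hy
  · intro c x _ hx
    simp only [map_smul]
    refine ⟨(Polynomial.natDegree_smul_le _ _).trans hx.1, ?_⟩
    rw [Polynomial.coeff_smul, hx.2]

end Pool.Agent.LibKplane
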