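import Mathlib
import Pool.Agent.LibKplane.Top

set_option autoImplicit false
set_option maxHeartbeats 1000000

open MvPolynomial Module

namespace Pool.Agent.LibKplane

variable {F : Type*} [Field F]

noncomputable instance degFintype (n r : ℕ) : Fintype {α : Fin n →₀ ℕ // α.degree < r} := by
  have h : {α : Fin n →₀ ℕ | α.degree < r}.Finite :=
    (Finsupp.finite_of_degree_le r).subset (fun α (hα : α.degree < r) =>
      (le_of_lt hα : α.degree ≤ r))
  exact h.fintype

lemma card_deg_le (n r : ℕ) : Fintype.card {α : Fin n →₀ ℕ // α.degree < r} ≤ r ^ n := by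
  classical
  have h : Fintype.card (Fin n → Fin r) = r ^ n := by simp
  rw [← h]
  have hle : ∀ (α : Fin n →₀ ℕ) i, α i ≤ α.degree := by
    intro α i
    rw [Finsupp.degree_eq_sum]
    exact Finset.single_le_sum (fun _ _ => Nat.zero_le _) (Finset.mem_univ i)
  apply Fintype.card_le_of_injective
    (fun α : {α : Fin n →₀ ℕ // α.degree < r} => fun i => (⟨α.1 i, (hle α.1 i).trans_lt α.2⟩ : Fin r))
  rintro ⟨α, hα⟩ ⟨β, hβ⟩ h
  apply Subtype.ext
  ext i
  have := congrFun h i
  simpa using this

/-- The main dimension count. -/
lemma dim_count [Fintype F] (m Dm : ℕ) (μ : (Fin (m + 1) → F) → ℕ)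
    (b : (Fin m → F) → (Fin m → F)) (Ω : ℕ → Finset (Fin m → F))
    (hΩ : ∀ d, ∀ s ∈ Ω d, 2 * d + 1 ≤ ∑ t : F, μ (Fin.cons t (b s + t • s))) :
    ∑ d ∈ Finset.range Dm, (Ω d).card * finrank F (PolyD F m d) ≤
      (Fintype.card F) ^ m * ∑ v, Fintype.card {α : Fin (m + 1) →₀ ℕ // α.degree < μ v} := by
  classical
  set q := Fintype.card F with hq
  have hqpos : 0 < q := Fintype.card_pos
  let W : ∀ d : ℕ, Submodule F (PolyD F m d) := fun d => vanSub d (d / q + 1) (Ω d)
  choose U hU using fun d => Submodule.exists_isCompl (W d)
  have hUr : ∀ d, finrank F (W d) + finrank F (U d) = finrank F (PolyD F m d) :=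
    fun d => Submodule.finrank_add_eq_of_isCompl (hU d)
  have hUΩ : ∀ d, (Ω d).card * finrank F (PolyD F m d) ≤ q ^ m * finrank F (U d) := by
    intro d
    have h1 := finrank_vanSub (F := F) (m := m) d (d / q + 1) (by
      rw [← hq, Nat.add_mul, one_mul]
      have := Nat.div_add_mod d q
      have h2 := Nat.mod_lt d hqpos
      rw [mul_comm] at this
      omega) (Ω d)
    have h2 := hUr d
    have h3 : q ^ m * finrank F (W d) + q ^ m * finrank F (U d) =
        q ^ m * finrank F (PolyD F m d) := by rw [← mul_add, h2]
    rw [← hq] at h1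
    change q ^ m * finrank F (W d) + _ ≤ _ at h1
    omega
  -- the linear map
  let P : (∀ d : Fin Dm, U d) →ₗ[F] MvPolynomial (Fin (m + 1)) F :=
    ∑ d : Fin Dm, ((hom m d).comp ((PolyD F m d).subtype.comp (U d).subtype)).comp
      (LinearMap.proj d)
  have hP : ∀ Q, P Q = ∑ d : Fin Dm, hom m d ((Q d : PolyD F m d) : MvPolynomial (Fin m) F) := by
    intro Q
    simp only [P, LinearMap.sum_apply]
    rfl
  let L : (∀ d : Fin Dm, U d) →ₗ[F]
      ((Σ v : Fin (m + 1) → F, {α : Fin (m + 1) →₀ ℕ // α.degree < μ v}) → F) :=
    LinearMap.pi (fun i => ((lcoeff F i.2.1).comp (shift i.1).toLinearMap).comp P)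
  have hL : Function.Injective L := by
    rw [← LinearMap.ker_eq_bot, LinearMap.ker_eq_bot']
    intro Q hQ
    have hvan : ∀ v, Van (μ v) v (P Q) := by
      intro v α hα
      exact congrFun hQ ⟨v, ⟨α, hα⟩⟩
    by_contra hne
    have hex : (Finset.univ.filter (fun d : Fin Dm => Q d ≠ 0)).Nonempty := by
      by_contra hempty
      apply hne
      funext d
      by_contra hd
      exact hempty ⟨d, by simpa using hd⟩
    obtain ⟨D, hD, hmax⟩ := Finset.exists_max_image _ (fun d : Fin Dm => (d : ℕ)) hex
    rw [Finset.mem_filter] at hD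
    have hzero : ∀ d : Fin Dm, (D : ℕ) < d → Q d = 0 := by
      intro d hd
      by_contra h
      have := hmax d (by simpa using h)
      omega
    have hmem : (Q D : PolyD F m D) ∈ W D := by
      intro s hs β hβ
      set G := Phi (b s) s (P Q) with hG
      have hTop : TopIs G D (shift s ((Q D : PolyD F m D) : MvPolynomial (Fin m) F)) := by
        rw [hG, hP, map_sum]
        have h1 : shift s ((Q D : PolyD F m D) : MvPolynomial (Fin m) F) =
            ∑ d : Fin Dm, (if d = D then
              shift s ((Q d : PolyD F m d) : MvPolynomial (Fin m) F) else 0) := by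
          rw [Finset.sum_ite_eq' Finset.univ D]
          simp
        rw [h1]
        apply TopIs.sum
        intro d _
        have h2 := Phi_hom (b s) s d ((Q d : PolyD F m d) : MvPolynomial (Fin m) F) (PolyD_deg _)
        rcases lt_trichotomy (d : ℕ) D with h | h | h
        · rw [if_neg (fun h' => by rw [h'] at h; exact lt_irrefl _ h)]
          refine ⟨h2.1.trans h.le, ?_⟩
          exact Polynomial.coeff_eq_zero_of_natDegree_lt (lt_of_le_of_lt h2.1 h)
        · have h' : d = D := Fin.ext h
          rw [if_pos h']
          subst h'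
          exact h2
        · rw [hzero d h]
          simp only [ZeroMemClass.coe_zero, map_zero, ite_self]
          exact ⟨by simp, by simp⟩
      have key := line_lemma G D hTop.1 (fun t0 => μ (Fin.cons t0 (b s + t0 • s))) (fun t0 => by
          apply line_van (hvan (Fin.cons t0 (b s + t0 • s))) (Phi (b s) s)
          intro i
          refine Fin.cases ?_ (fun i => ?_) i
          · rw [Phi_zero]
            exact Ideal.subset_span (Or.inl rfl)
          · rw [Phi_succ, Fin.cons_succ]
            have e : (Polynomial.C (C (b s i)) + Polynomial.X * Polynomial.C (X i + C (s i)) -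
                algebraMap F (Polynomial (MvPolynomial (Fin m) F)) ((b s + t0 • s) i)) =
                Polynomial.X * Polynomial.C (X i) +
                Polynomial.C (C (s i)) * (Polynomial.X - Polynomial.C (C t0)) := by
              have : algebraMap F (Polynomial (MvPolynomial (Fin m) F)) ((b s + t0 • s) i) =
                Polynomial.C (C (b s i)) + Polynomial.C (C t0) * Polynomial.C (C (s i)) := by
                have h3 : algebraMap F (Polynomial (MvPolynomial (Fin m) F)) ((b s + t0 • s) i) =
                  Polynomial.C (C ((b s + t0 • s) i)) := rfl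
                rw [h3, Pi.add_apply, Pi.smul_apply, smul_eq_mul]
                simp only [map_add, map_mul]
              rw [this, Polynomial.C_add]
              ring
            rw [e]
            apply Ideal.add_mem
            · exact Ideal.mul_mem_left _ _ (Ideal.subset_span (Or.inr ⟨i, rfl⟩))
            · exact Ideal.mul_mem_left _ _ (Ideal.subset_span (Or.inl rfl))) β (by
          have h1 := hΩ D s hs
          have h2 : ∑ t : F, μ (Fin.cons t (b s + t • s)) ≤
              ∑ t : F, ((μ (Fin.cons t (b s + t • s)) - β.degree) + β.degree) :=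
            Finset.sum_le_sum (fun t _ => by omega)
          rw [Finset.sum_add_distrib, Finset.sum_const, Finset.card_univ, smul_eq_mul, ← hq] at h2
          have h3 : q * β.degree ≤ D := by
            have h4 : β.degree ≤ D / q := by omega
            calc q * β.degree ≤ q * (D / q) := Nat.mul_le_mul_left _ h4
              _ ≤ D := Nat.mul_div_le _ _
          omega) D
      rw [hTop.2] at key
      exact key
    have h0 : (Q D : PolyD F m D) ∈ W D ⊓ U D := ⟨hmem, (Q D).2⟩
    rw [(hU D).inf_eq_bot, Submodule.mem_bot] at h0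
    exact hD.2 (Subtype.ext h0)
  have hfin := LinearMap.finrank_le_finrank_of_injective hL
  rw [finrank_fintype_fun_eq_card, Module.finrank_pi_fintype, Fintype.card_sigma] at hfin
  rw [Fin.sum_univ_eq_sum_range (fun d => finrank F (U d)) Dm] at hfin
  calc ∑ d ∈ Finset.range Dm, (Ω d).card * finrank F (PolyD F m d)
      ≤ ∑ d ∈ Finset.range Dm, q ^ m * finrank F (U d) :=
        Finset.sum_le_sum (fun d _ => hUΩ d)
    _ = q ^ m * ∑ d ∈ Finset.range Dm, finrank F (U d) := by rw [Finset.mul_sum]
    _ ≤ _ := Nat.mul_le_mul_left _ hfin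

end Pool.Agent.LibKplane
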