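import Mathlib
import Pool.Agent.LibKplane.Count

set_option autoImplicit false
set_option maxHeartbeats 1000000

open MvPolynomial Module

namespace Pool.Agent.LibKplane

variable {F : Type*} [Field F]

lemma finrank_PolyD_lower (m d : ℕ) : (d + 1) ^ m ≤ m ^ m * finrank F (PolyD F m d) := by
  classical
  have h1 : finrank F (PolyD F m d) = Nat.card {n : Fin m →₀ ℕ | (n.sum fun _ e => e) ≤ d} :=
    Module.finrank_eq_nat_card_basis (basisRestrictSupport F _)
  have hfin : {n : Fin m →₀ ℕ | (n.sum fun _ e => e) ≤ d}.Finite := by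
    refine (Finsupp.finite_of_degree_le d).subset (fun n hn => ?_)
    simpa [Finsupp.degree_eq_sum, Finsupp.sum_fintype] using hn
  have h2 : (d / m + 1) ^ m ≤ Nat.card {n : Fin m →₀ ℕ | (n.sum fun _ e => e) ≤ d} := by
    have h3 : Nat.card (Fin m → Fin (d / m + 1)) = (d / m + 1) ^ m := by simp
    rw [← h3]
    have := hfin.to_subtype
    apply Nat.card_le_card_of_injective
      (fun f : Fin m → Fin (d / m + 1) =>
        (⟨Finsupp.equivFunOnFinite.symm (fun i => (f i : ℕ)), by
          rw [Set.mem_ofPred_eq, Finsupp.sum_fintype _ _ (fun _ => rfl)]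
          calc ∑ i : Fin m, (Finsupp.equivFunOnFinite.symm (fun i => (f i : ℕ))) i
              ≤ ∑ _i : Fin m, d / m := Finset.sum_le_sum (fun i _ => by
                have := (f i).2
                simp only [Finsupp.equivFunOnFinite_symm_apply_apply]
                omega)
            _ = m * (d / m) := by simp
            _ ≤ d := Nat.mul_div_le _ _⟩ : {n : Fin m →₀ ℕ | (n.sum fun _ e => e) ≤ d}))
    intro f g hfg
    funext i
    have h4 := congrArg Subtype.val hfg
    have h5 := DFunLike.congr_fun h4 i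
    simp only [Finsupp.equivFunOnFinite_symm_apply_apply] at h5
    exact Fin.ext h5
  rw [h1]
  refine le_trans ?_ (Nat.mul_le_mul_left _ h2)
  rcases Nat.eq_zero_or_pos m with h | h
  · subst h; simp
  · rw [← mul_pow]
    apply Nat.pow_le_pow_left
    have := Nat.div_add_mod d m
    have h6 := Nat.mod_lt d h
    rw [mul_add, mul_one]
    omega

lemma pow_succ_step (K m : ℕ) : (K + 1) ^ (m + 1) ≤ K ^ (m + 1) + (m + 1) * (K + 1) ^ m := by
  induction m with
  | zero => simp
  | succ m ih =>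
    have h1 : K * (K + 1) ^ m ≤ (K + 1) ^ (m + 1) := by
      rw [pow_succ, mul_comm]; exact Nat.mul_le_mul_left _ (Nat.le_succ K)
    calc (K + 1) ^ (m + 1 + 1) = K * (K + 1) ^ (m + 1) + (K + 1) ^ (m + 1) := by ring
      _ ≤ K * (K ^ (m + 1) + (m + 1) * (K + 1) ^ m) + (K + 1) ^ (m + 1) := by gcongr
      _ = K ^ (m + 1 + 1) + (m + 1) * (K * (K + 1) ^ m) + (K + 1) ^ (m + 1) := by ring
      _ ≤ K ^ (m + 1 + 1) + (m + 1) * ((K + 1) ^ (m + 1)) + (K + 1) ^ (m + 1) := by gcongr
      _ = _ := by ring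

lemma sum_pow_lower (m K : ℕ) : K ^ (m + 1) ≤ (m + 1) * ∑ d ∈ Finset.range K, (d + 1) ^ m := by
  induction K with
  | zero => simp
  | succ K ih =>
    rw [Finset.sum_range_succ, mul_add]
    exact (pow_succ_step K m).trans (Nat.add_le_add_right ih _)

/-- Integer version of the Kakeya maximal inequality, in one chart. -/
theorem kak_int [Fintype F] (m : ℕ) (μ : (Fin (m + 1) → F) → ℕ) (b : (Fin m → F) → (Fin m → F)) :
    ∑ s, (∑ t : F, μ (Fin.cons t (b s + t • s))) ^ (m + 1) ≤
      (2 ^ (m + 1) * (m + 1) * m ^ m) * (Fintype.card F) ^ m * ∑ v, μ v ^ (m + 1) := by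
  classical
  set lam : (Fin m → F) → ℕ := fun s => ∑ t : F, μ (Fin.cons t (b s + t • s)) with hlam
  set Ω : ℕ → Finset (Fin m → F) := fun d => Finset.univ.filter (fun s => 2 * d + 1 ≤ lam s) with hΩ
  set Dm : ℕ := ∑ s, lam s + 1 with hDm
  have hle : ∀ s, lam s ≤ ∑ s, lam s := fun s =>
    Finset.single_le_sum (f := lam) (fun _ _ => Nat.zero_le _) (Finset.mem_univ s)
  have h1 : ∀ s, lam s ^ (m + 1) ≤ 2 ^ (m + 1) * (m + 1) *
      ∑ d ∈ Finset.range Dm, (if s ∈ Ω d then (d + 1) ^ m else 0) := by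
    intro s
    set K := (lam s + 1) / 2 with hK
    have h2 : lam s ≤ 2 * K := by omega
    have h3 : ∑ d ∈ Finset.range Dm, (if s ∈ Ω d then (d + 1) ^ m else 0) =
        ∑ d ∈ Finset.range K, (d + 1) ^ m := by
      rw [← Finset.sum_filter]
      apply Finset.sum_congr _ (fun _ _ => rfl)
      ext d
      simp only [Finset.mem_filter, Finset.mem_range, hΩ, Finset.mem_univ, true_and]
      have := hle s
      constructor
      · rintro ⟨_, h⟩; omega
      · intro h; constructor <;> omega
    rw [h3]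
    calc lam s ^ (m + 1) ≤ (2 * K) ^ (m + 1) := Nat.pow_le_pow_left h2 _
      _ = 2 ^ (m + 1) * K ^ (m + 1) := by rw [mul_pow]
      _ ≤ 2 ^ (m + 1) * ((m + 1) * ∑ d ∈ Finset.range K, (d + 1) ^ m) :=
          Nat.mul_le_mul_left _ (sum_pow_lower m K)
      _ = _ := by ring
  have h4 := dim_count (F := F) m Dm μ b Ω (by
    intro d s hs
    rw [hΩ, Finset.mem_filter] at hs
    exact hs.2)
  calc ∑ s, lam s ^ (m + 1)
      ≤ ∑ s, 2 ^ (m + 1) * (m + 1) *
        ∑ d ∈ Finset.range Dm, (if s ∈ Ω d then (d + 1) ^ m else 0) :=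
        Finset.sum_le_sum (fun s _ => h1 s)
    _ = 2 ^ (m + 1) * (m + 1) * ∑ d ∈ Finset.range Dm, (Ω d).card * (d + 1) ^ m := by
        rw [← Finset.mul_sum, Finset.sum_comm]
        congr 1
        apply Finset.sum_congr rfl
        intro d _
        rw [← Finset.sum_filter, Finset.sum_const, smul_eq_mul]
        congr 2
        ext s
        simp
    _ ≤ 2 ^ (m + 1) * (m + 1) * ∑ d ∈ Finset.range Dm, (Ω d).card * (m ^ m * finrank F (PolyD F m d)) := by
        gcongr with d _
        exact finrank_PolyD_lower m d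
    _ = 2 ^ (m + 1) * (m + 1) * m ^ m *
        ∑ d ∈ Finset.range Dm, (Ω d).card * finrank F (PolyD F m d) := by
        rw [Finset.mul_sum, Finset.mul_sum]
        apply Finset.sum_congr rfl
        intro d _
        ring
    _ ≤ 2 ^ (m + 1) * (m + 1) * m ^ m * ((Fintype.card F) ^ m *
        ∑ v, Fintype.card {α : Fin (m + 1) →₀ ℕ // α.degree < μ v}) := Nat.mul_le_mul_left _ h4
    _ ≤ 2 ^ (m + 1) * (m + 1) * m ^ m * ((Fintype.card F) ^ m * ∑ v, μ v ^ (m + 1)) := by
        gcongr with v _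
        exact card_deg_le _ _
    _ = _ := by ring

end Pool.Agent.LibKplane
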