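import Mathlib
import Pool.Agent.LibKplane.Kak

set_option autoImplicit false
set_option maxHeartbeats 1000000

open Module Filter Topology

namespace Pool.Agent.LibKplane

/-- The constant for lines. -/
noncomputable def kakC (m : ℕ) : ℝ := 2 ^ (m + 1) * (m + 1) * m ^ m

lemma kakC_pos (m : ℕ) : 0 < kakC m := by
  unfold kakC
  rcases Nat.eq_zero_or_pos m with h | h
  · subst h; norm_num
  · have : (0 : ℝ) < m := by exact_mod_cast h
    positivity

/-- Real version of the Kakeya maximal inequality, in one chart. -/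
theorem kak_real {F : Type*} [Field F] [Fintype F] (m : ℕ) (g : (Fin (m + 1) → F) → ℝ)
    (hg : ∀ v, 0 ≤ g v) (b : (Fin m → F) → (Fin m → F)) :
    ∑ s, (∑ t : F, g (Fin.cons t (b s + t • s))) ^ (m + 1) ≤
      kakC m * (Fintype.card F : ℝ) ^ m * ∑ v, g v ^ (m + 1) := by
  classical
  have hlim : ∀ v, Tendsto (fun N : ℕ => ((⌊g v * N⌋₊ : ℝ)) / N) atTop (𝓝 (g v)) := fun v =>
    (tendsto_nat_floor_mul_div_atTop (hg v)).comp tendsto_natCast_atTop_atTop
  have hL : Tendsto (fun N : ℕ => ∑ s, (∑ t : F,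
      ((⌊g (Fin.cons t (b s + t • s)) * N⌋₊ : ℝ)) / N) ^ (m + 1)) atTop
      (𝓝 (∑ s, (∑ t : F, g (Fin.cons t (b s + t • s))) ^ (m + 1))) := by
    apply tendsto_finsetSum
    intro s _
    apply Tendsto.pow
    apply tendsto_finsetSum
    intro t _
    exact hlim _
  have hR : Tendsto (fun N : ℕ => kakC m * (Fintype.card F : ℝ) ^ m *
      ∑ v, (((⌊g v * N⌋₊ : ℝ)) / N) ^ (m + 1)) atTop
      (𝓝 (kakC m * (Fintype.card F : ℝ) ^ m * ∑ v, g v ^ (m + 1))) := by
    apply Tendsto.const_mul
    apply tendsto_finsetSum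
    intro v _
    exact (hlim v).pow _
  refine le_of_tendsto_of_tendsto' hL hR ?_
  intro N
  have h1 := kak_int m (fun v => ⌊g v * N⌋₊) b
  have h2 : ((∑ s, (∑ t : F, ⌊g (Fin.cons t (b s + t • s)) * N⌋₊) ^ (m + 1) : ℕ) : ℝ) ≤
      (((2 ^ (m + 1) * (m + 1) * m ^ m) * (Fintype.card F) ^ m * ∑ v, ⌊g v * N⌋₊ ^ (m + 1) : ℕ) : ℝ) :=
    Nat.cast_le.2 h1
  push_cast at h2
  have h3 : ∑ s, (∑ t : F, ((⌊g (Fin.cons t (b s + t • s)) * N⌋₊ : ℝ)) / N) ^ (m + 1) =
      (∑ s, (∑ t : F, (⌊g (Fin.cons t (b s + t • s)) * N⌋₊ : ℝ)) ^ (m + 1)) / N ^ (m + 1) := by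
    rw [Finset.sum_div]
    apply Finset.sum_congr rfl
    intro s _
    rw [← Finset.sum_div, div_pow]
  have h4 : ∑ v, (((⌊g v * N⌋₊ : ℝ)) / N) ^ (m + 1) =
      (∑ v, (⌊g v * N⌋₊ : ℝ) ^ (m + 1)) / N ^ (m + 1) := by
    rw [Finset.sum_div]
    apply Finset.sum_congr rfl
    intro s _
    rw [div_pow]
  rw [h3, h4, ← mul_div_assoc]
  apply div_le_div_of_nonneg_right _ (by positivity)
  unfold kakC
  exact h2

section general

variable {F : Type*} [Field F] {E : Type*} [AddCommGroup E] [Module F E]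

/-- In a general space. -/
lemma kak_chart [Fintype F] [Fintype E] (m : ℕ) (θ : E ≃ₗ[F] (Fin (m + 1) → F)) (g : E → ℝ)
    (hg : ∀ v, 0 ≤ g v) (a : E → E) (S : Finset E) (hS : ∀ u ∈ S, θ u 0 = 1) :
    ∑ u ∈ S, (∑ t : F, g (a u + t • u)) ^ (m + 1) ≤
      kakC m * (Fintype.card F : ℝ) ^ m * ∑ v, g v ^ (m + 1) := by
  classical
  let us : (Fin m → F) → E := fun s => θ.symm (Fin.cons 1 s)
  let b : (Fin m → F) → (Fin m → F) := fun s => Fin.tail (θ (a (us s))) - (θ (a (us s)) 0) • s
  have h1 := kak_real m (fun v => g (θ.symm v)) (fun v => hg _) b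
  have h2 : ∑ v, g (θ.symm v) ^ (m + 1) = ∑ v, g v ^ (m + 1) :=
    θ.symm.toEquiv.sum_comp (fun v => g v ^ (m + 1))
  rw [h2] at h1
  refine le_trans ?_ h1
  have h3 : ∀ s, ∑ t : F, g (θ.symm (Fin.cons t (b s + t • s))) =
      ∑ t : F, g (a (us s) + t • us s) := by
    intro s
    rw [← Equiv.sum_comp (Equiv.addLeft (θ (a (us s)) 0))]
    apply Finset.sum_congr rfl
    intro t _
    congr 1
    apply θ.injective
    rw [LinearEquiv.apply_symm_apply, map_add, map_smul]
    simp only [us, LinearEquiv.apply_symm_apply]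
    funext i
    refine Fin.cases ?_ (fun i => ?_) i
    · simp
    · simp only [Equiv.coe_addLeft, Fin.cons_succ, Pi.add_apply, Pi.smul_apply, smul_eq_mul, b,
        Pi.sub_apply, Fin.tail, us]
      ring
  simp only [h3]
  have h4 : ∀ u ∈ S, u = us (Fin.tail (θ u)) := by
    intro u hu
    apply θ.injective
    simp only [us, LinearEquiv.apply_symm_apply]
    funext i
    refine Fin.cases ?_ (fun i => ?_) i
    · simp [hS u hu]
    · simp [Fin.tail]
  calc ∑ u ∈ S, (∑ t : F, g (a u + t • u)) ^ (m + 1)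
      = ∑ s ∈ S.image (fun u => Fin.tail (θ u)), (∑ t : F, g (a (us s) + t • us s)) ^ (m + 1) := by
        rw [Finset.sum_image]
        · apply Finset.sum_congr rfl
          intro u hu
          rw [← h4 u hu]
        · intro u hu v hv huv
          simp only at huv
          rw [h4 u hu, h4 v hv, huv]
    _ ≤ ∑ s, (∑ t : F, g (a (us s) + t • us s)) ^ (m + 1) := by
        apply Finset.sum_le_sum_of_subset_of_nonneg (Finset.subset_univ _)
        intro s _ _
        exact pow_nonneg (Finset.sum_nonneg (fun _ _ => hg _)) _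

end general

section KP

variable (F : Type*) [Field F] (E : Type*) [AddCommGroup E] [Module F E]

noncomputable instance subFintype [Finite E] : Fintype (Submodule F E) := Fintype.ofFinite _

open Classical in
/-- The Grassmannian. -/
noncomputable def Gr [Finite E] (k : ℕ) : Finset (Submodule F E) :=
  Finset.univ.filter (fun W => finrank F W = k)

variable {F E}

lemma mem_Gr [Finite E] {k : ℕ} {W : Submodule F E} : W ∈ Gr F E k ↔ finrank F W = k := by
  classical
  simp [Gr]

open Classical in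
/-- The coset `a + W`. -/
noncomputable def cos [Fintype E] (a : E) (W : Submodule F E) : Finset E :=
  Finset.univ.filter (fun x => x - a ∈ W)

lemma mem_cos [Fintype E] {a : E} {W : Submodule F E} {x : E} : x ∈ cos a W ↔ x - a ∈ W := by
  classical
  simp [cos]

end KP

/-- The maximal inequality. -/
def KP (n k : ℕ) (C : ℝ) : Prop :=
  ∀ (F : Type) [Field F] [Fintype F] (E : Type) [AddCommGroup E] [Module F E] [Fintype E],
    finrank F E = n → ∀ (w : E → ℝ), (∀ x, 0 ≤ w x) → ∀ (a : Submodule F E → E),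
    ∑ W ∈ Gr F E k, (∑ x ∈ cos (a W) W, w x ^ ((k : ℝ) / n)) ^ n ≤
      C * (Fintype.card F : ℝ) ^ (k * (n - k)) * (∑ x, w x) ^ k

lemma sum_cos_line {F : Type*} [Field F] [Fintype F] {E : Type*} [AddCommGroup E] [Module F E]
    [Fintype E] (a u : E) (hu : u ≠ 0) (W : Submodule F E) (hW : W = Submodule.span F {u})
    (g : E → ℝ) : ∑ x ∈ cos a W, g x = ∑ t : F, g (a + t • u) := by
  classical
  symm
  have h1 : cos a W = Finset.univ.image (fun t : F => a + t • u) := by
    ext x
    rw [mem_cos, hW, Submodule.mem_span_singleton]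
    simp only [Finset.mem_image, Finset.mem_univ, true_and]
    constructor
    · rintro ⟨t, ht⟩; exact ⟨t, by rw [ht]; abel⟩
    · rintro ⟨t, ht⟩; exact ⟨t, by rw [← ht]; abel⟩
  rw [h1, Finset.sum_image]
  intro t _ t' _ h
  simp only [add_right_inj] at h
  exact smul_left_injective F hu h

theorem KP_one (m : ℕ) : KP (m + 1) 1 ((m + 1) * kakC m) := by
  classical
  intro F _ _ E _ _ _ hE w hw a
  set g : E → ℝ := fun x => w x ^ (((1 : ℕ) : ℝ) / ((m + 1 : ℕ) : ℝ)) with hgdef
  have hg : ∀ x, 0 ≤ g x := fun x => Real.rpow_nonneg (hw x) _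
  have hgp : ∀ x, g x ^ (m + 1) = w x := by
    intro x
    rw [hgdef]
    simp only
    rw [← Real.rpow_natCast, ← Real.rpow_mul (hw x)]
    rw [Nat.cast_one, one_div, inv_mul_cancel₀ (by positivity), Real.rpow_one]
  have : FiniteDimensional F E := Module.Finite.of_finite
  let e : E ≃ₗ[F] (Fin (m + 1) → F) := LinearEquiv.ofFinrankEq _ _ (by rw [hE]; simp)
  let θ : Fin (m + 1) → (E ≃ₗ[F] (Fin (m + 1) → F)) := fun j =>
    e ≪≫ₗ LinearEquiv.funCongrLeft F F (Equiv.swap 0 j)
  have hθ : ∀ j x, θ j x 0 = e x j := by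
    intro j x
    simp [θ, LinearEquiv.funCongrLeft]
  have hex : ∀ W : Submodule F E, ∃ ju : Fin (m + 1) × E, W ∈ Gr F E 1 →
      (θ ju.1 ju.2 0 = 1 ∧ W = Submodule.span F {ju.2}) := by
    intro W
    by_cases hW : W ∈ Gr F E 1
    · rw [mem_Gr] at hW
      obtain ⟨v, hv0, hv⟩ := finrank_eq_one_iff'.1 hW
      have hv0' : (v : E) ≠ 0 := fun h => hv0 (Subtype.ext h)
      have h1 : e v ≠ 0 := fun h => hv0' (e.map_eq_zero_iff.1 h)
      obtain ⟨j, hj⟩ := Function.ne_iff.1 h1
      simp only [Pi.zero_apply] at hj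
      refine ⟨(j, (e v j)⁻¹ • (v : E)), fun _ => ⟨?_, ?_⟩⟩
      · rw [hθ, map_smul, Pi.smul_apply, smul_eq_mul, inv_mul_cancel₀ hj]
      · apply le_antisymm
        · intro x hx
          obtain ⟨c, hc⟩ := hv ⟨x, hx⟩
          have hc' : c • (v : E) = x := congrArg Subtype.val hc
          rw [Submodule.mem_span_singleton]
          refine ⟨c * e v j, ?_⟩
          rw [smul_smul, mul_assoc, mul_inv_cancel₀ hj, mul_one, hc']
        · rw [Submodule.span_singleton_le_iff_mem]
          exact W.smul_mem _ v.2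
    · exact ⟨(0, 0), fun h => absurd h hW⟩
  choose ju hju using hex
  have h1 : ∀ W ∈ Gr F E 1, ∑ x ∈ cos (a W) W, g x =
      ∑ t : F, g (a (Submodule.span F {(ju W).2}) + t • (ju W).2) := by
    intro W hW
    obtain ⟨h2, h3⟩ := hju W hW
    rw [← h3]
    apply sum_cos_line _ _ _ _ h3
    rintro h4
    rw [h4, map_zero] at h2
    simp at h2
  calc ∑ W ∈ Gr F E 1, (∑ x ∈ cos (a W) W, g x) ^ (m + 1)
      = ∑ W ∈ Gr F E 1, (∑ t : F, g (a (Submodule.span F {(ju W).2}) + t • (ju W).2)) ^ (m + 1) :=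
        Finset.sum_congr rfl (fun W hW => by rw [h1 W hW])
    _ = ∑ j : Fin (m + 1), ∑ W ∈ (Gr F E 1).filter (fun W => (ju W).1 = j),
          (∑ t : F, g (a (Submodule.span F {(ju W).2}) + t • (ju W).2)) ^ (m + 1) := by
        rw [Finset.sum_fiberwise]
    _ ≤ ∑ _j : Fin (m + 1), kakC m * (Fintype.card F : ℝ) ^ m * ∑ v, g v ^ (m + 1) := by
        apply Finset.sum_le_sum
        intro j _
        have h5 := kak_chart m (θ j) g hg (fun u => a (Submodule.span F {u}))
          (((Gr F E 1).filter (fun W => (ju W).1 = j)).image (fun W => (ju W).2)) (by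
            intro u hu
            rw [Finset.mem_image] at hu
            obtain ⟨W, hW, rfl⟩ := hu
            rw [Finset.mem_filter] at hW
            have := (hju W hW.1).1
            rw [hW.2] at this
            exact this)
        rw [Finset.sum_image] at h5
        · exact h5
        · intro W hW W' hW' hWW
          simp only [Finset.coe_filter, Set.mem_ofPred_eq] at hW hW'
          simp only at hWW
          rw [(hju W hW.1).2, (hju W' hW'.1).2, hWW]
    _ = _ := by
        rw [Finset.sum_const, Finset.card_univ, Fintype.card_fin, nsmul_eq_mul]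
        simp only [hgp]
        push_cast
        rw [pow_one, one_mul]
        ring

end Pool.Agent.LibKplane
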