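import Mathlib

set_option autoImplicit false
set_option maxHeartbeats 1000000

namespace Pool.Agent.LibKplane

/-- Hölder with exponents `N+1` and `(N+1)/N`. -/
lemma holder {ι : Type*} (s : Finset ι) (f g : ι → ℝ) (hf : ∀ i ∈ s, 0 ≤ f i)
    (hg : ∀ i ∈ s, 0 ≤ g i) {N : ℕ} (hN : 1 ≤ N) :
    (∑ i ∈ s, f i * g i) ^ (N + 1) ≤
      (∑ i ∈ s, f i ^ (N + 1)) * (∑ i ∈ s, g i ^ (((N : ℝ) + 1) / N)) ^ N := by
  have hN' : (0 : ℝ) < N := by exact_mod_cast hN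
  have hpq : Real.HolderConjugate ((N : ℝ) + 1) (((N : ℝ) + 1) / N) := by
    rw [Real.holderConjugate_iff]
    refine ⟨by linarith, ?_⟩
    field_simp
    ring
  have h1 := Real.inner_le_Lp_mul_Lq_of_nonneg s hpq hf hg
  have hA : 0 ≤ ∑ i ∈ s, f i ^ ((N : ℝ) + 1) :=
    Finset.sum_nonneg (fun i hi => Real.rpow_nonneg (hf i hi) _)
  have hB : 0 ≤ ∑ i ∈ s, g i ^ (((N : ℝ) + 1) / N) :=
    Finset.sum_nonneg (fun i hi => Real.rpow_nonneg (hg i hi) _)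
  have h0 : 0 ≤ ∑ i ∈ s, f i * g i := Finset.sum_nonneg (fun i hi => mul_nonneg (hf i hi) (hg i hi))
  have h2 := pow_le_pow_left₀ h0 h1 (N + 1)
  refine h2.trans (le_of_eq ?_)
  rw [mul_pow]
  congr 1
  · rw [← Real.rpow_natCast, ← Real.rpow_mul hA]
    push_cast
    rw [one_div, inv_mul_cancel₀ (by positivity), Real.rpow_one]
    apply Finset.sum_congr rfl
    intro i hi
    rw [← Real.rpow_natCast]
    push_cast
    rfl
  · rw [← Real.rpow_natCast, ← Real.rpow_mul hB, ← Real.rpow_natCast]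
    congr 1
    push_cast
    field_simp

lemma rpow_step {s : ℝ} (hs0 : 0 < s) (hs1 : s < 1) (i : ℕ) :
    (1 - s) * ((i : ℝ) + 1) ^ (-s) ≤ ((i : ℝ) + 1) ^ (1 - s) - (i : ℝ) ^ (1 - s) := by
  have hpos : (0 : ℝ) < (i : ℝ) + 1 := by positivity
  have h1 := rpow_one_add_le_one_add_mul_self (s := -(1 / ((i : ℝ) + 1))) (by
    rw [neg_le_neg_iff]
    rw [div_le_one hpos]
    have : (0 : ℝ) ≤ i := Nat.cast_nonneg i
    linarith) (p := 1 - s) (by linarith) (by linarith)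
  have h2 : (i : ℝ) = ((i : ℝ) + 1) * (1 + -(1 / ((i : ℝ) + 1))) := by
    field_simp
    ring
  have h3 : (0 : ℝ) ≤ 1 + -(1 / ((i : ℝ) + 1)) := by
    have : 1 / ((i : ℝ) + 1) ≤ 1 := by
      rw [div_le_one hpos]
      have : (0 : ℝ) ≤ i := Nat.cast_nonneg i
      linarith
    linarith
  have h4 : (i : ℝ) ^ (1 - s) = ((i : ℝ) + 1) ^ (1 - s) * (1 + -(1 / ((i : ℝ) + 1))) ^ (1 - s) := by
    conv_lhs => rw [h2]
    rw [Real.mul_rpow hpos.le h3]
  have h5 : ((i : ℝ) + 1) ^ (-s) = ((i : ℝ) + 1) ^ (1 - s) * (1 / ((i : ℝ) + 1)) := by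
    have : -s = (1 - s) - 1 := by ring
    rw [this, Real.rpow_sub_one hpos.ne']
    ring
  rw [h4, h5]
  have h6 : 0 < ((i : ℝ) + 1) ^ (1 - s) := Real.rpow_pos_of_pos hpos _
  nlinarith [mul_le_mul_of_nonneg_left h1 h6.le]

lemma sum_rpow_le {s : ℝ} (hs0 : 0 < s) (hs1 : s < 1) (Q : ℕ) :
    ∑ i ∈ Finset.range Q, ((i : ℝ) + 1) ^ (-s) ≤ (Q : ℝ) ^ (1 - s) / (1 - s) := by
  have h1s : 0 < 1 - s := by linarith
  induction Q with
  | zero =>
    simp [Real.zero_rpow h1s.ne']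
  | succ Q ih =>
    rw [Finset.sum_range_succ]
    have h1 := rpow_step hs0 hs1 Q
    rw [le_div_iff₀ h1s] at ih ⊢
    push_cast
    nlinarith

/-- Abel summation comparison. -/
lemma abel_le (φ c d : ℕ → ℝ) (hφ : Antitone φ) (hφ0 : ∀ r, 0 ≤ φ r)
    (h : ∀ R, ∑ r ∈ Finset.range R, c r ≤ ∑ r ∈ Finset.range R, d r) (R : ℕ) :
    ∑ r ∈ Finset.range R, c r * φ r ≤ ∑ r ∈ Finset.range R, d r * φ r := by
  -- write with differences
  have key : ∀ R, (∑ r ∈ Finset.range R, (d r - c r) * φ r) -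
      (∑ r ∈ Finset.range R, (d r - c r)) * φ R ≥ 0 := by
    intro R
    induction R with
    | zero => simp
    | succ R ih =>
      rw [Finset.sum_range_succ, Finset.sum_range_succ]
      have h1 : 0 ≤ ∑ r ∈ Finset.range (R + 1), (d r - c r) := by
        rw [Finset.sum_sub_distrib]; linarith [h (R + 1)]
      rw [Finset.sum_range_succ] at h1
      have h2 := hφ (Nat.le_succ R)
      nlinarith [mul_le_mul_of_nonneg_left h2 h1]
  have h1 := key R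
  have h2 : 0 ≤ ∑ r ∈ Finset.range R, (d r - c r) := by
    rw [Finset.sum_sub_distrib]; linarith [h R]
  have h3 := mul_nonneg h2 (hφ0 R)
  have h4 : ∑ r ∈ Finset.range R, (d r - c r) * φ r =
      ∑ r ∈ Finset.range R, d r * φ r - ∑ r ∈ Finset.range R, c r * φ r := by
    rw [← Finset.sum_sub_distrib]
    apply Finset.sum_congr rfl
    intro r _; ring
  linarith

lemma pow_succ_sub_le (r : ℕ) (κ : ℕ) :
    ((r : ℝ) + 1) ^ (κ + 1) - (r : ℝ) ^ (κ + 1) ≤ (κ + 1) * ((r : ℝ) + 1) ^ κ := by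
  have h : ∀ m K : ℕ, (K + 1) ^ (m + 1) ≤ K ^ (m + 1) + (m + 1) * (K + 1) ^ m := by
    intro m K
    induction m with
    | zero => simp
    | succ m ih =>
      have h1 : K * (K + 1) ^ m ≤ (K + 1) ^ (m + 1) := by
        rw [pow_succ, mul_comm]; exact Nat.mul_le_mul_left _ (Nat.le_succ K)
      calc (K + 1) ^ (m + 1 + 1) = K * (K + 1) ^ (m + 1) + (K + 1) ^ (m + 1) := by ring
        _ ≤ K * (K ^ (m + 1) + (m + 1) * (K + 1) ^ m) + (K + 1) ^ (m + 1) := by gcongr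
        _ = K ^ (m + 1 + 1) + (m + 1) * (K * (K + 1) ^ m) + (K + 1) ^ (m + 1) := by ring
        _ ≤ K ^ (m + 1 + 1) + (m + 1) * ((K + 1) ^ (m + 1)) + (K + 1) ^ (m + 1) := by gcongr
        _ = _ := by ring
  have h1 : (((r + 1) ^ (κ + 1) : ℕ) : ℝ) ≤ ((r ^ (κ + 1) + (κ + 1) * (r + 1) ^ κ : ℕ) : ℝ) :=
    Nat.cast_le.2 (h κ r)
  push_cast at h1
  linarith

end Pool.Agent.LibKplane
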