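import Mathlib
import Pool.Agent.LibKplane.Base
import Pool.Agent.LibKplane.Tools

set_option autoImplicit false
set_option maxHeartbeats 1000000

open Module

namespace Pool.Agent.LibKplane

section

variable {F : Type*} [Field F] {E : Type*} [AddCommGroup E] [Module F E]

lemma card_cos [Fintype F] [Fintype E] (a : E) (W : Submodule F E) :
    (cos a W).card = (Fintype.card F) ^ finrank F W := by
  classical
  have h1 : (cos a W).card = Fintype.card W := by
    rw [← Fintype.card_coe]
    apply Fintype.card_congr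
    refine ⟨fun x => ⟨x.1 - a, mem_cos.1 x.2⟩, fun y => ⟨a + y.1, mem_cos.2 (by simp)⟩, ?_, ?_⟩
    · intro x; simp
    · intro y; simp
  rw [h1, Module.card_eq_pow_finrank (K := F) (V := W)]

/-- translation by an element of `W` preserves sums over cosets -/
lemma sum_cos_add [Fintype E] (a : E) (W : Submodule F E) (v : E) (hv : v ∈ W) (g : E → ℝ) :
    ∑ x ∈ cos a W, g (x + v) = ∑ x ∈ cos a W, g x := by
  apply Finset.sum_nbij' (fun x => x + v) (fun x => x - v)
  · intro x hx
    rw [mem_cos] at hx ⊢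
    have : x + v - a = (x - a) + v := by abel
    rw [this]; exact W.add_mem hx hv
  · intro x hx
    rw [mem_cos] at hx ⊢
    have : x - v - a = (x - a) - v := by abel
    rw [this]; exact W.sub_mem hx hv
  · intro x _; simp
  · intro x _; simp
  · intro x _; rfl

/-- summing along lines -/
lemma sum_cos_lines [Fintype F] [Fintype E] (a : E) (W : Submodule F E) (u : E) (hu : u ∈ W)
    (g : E → ℝ) :
    ∑ x ∈ cos a W, ∑ c : F, g (x + c • u) = (Fintype.card F : ℝ) * ∑ x ∈ cos a W, g x := by
  rw [Finset.sum_comm]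
  rw [Finset.sum_congr rfl (fun c _ => sum_cos_add a W (c • u) (W.smul_mem c hu) g)]
  simp

end

/-- The fibres of the quotient map. -/
lemma sum_fiber {F : Type*} [Field F] [Fintype F] {E : Type*} [AddCommGroup E] [Module F E]
    [Fintype E] (U : Submodule F E) (hU : finrank F U = 1) [Fintype (E ⧸ U)]
    (S : Finset E) (T : Finset (E ⧸ U))
    (hST : ∀ x, x ∈ S ↔ U.mkQ x ∈ T) (G : (E ⧸ U) → ℝ) :
    ∑ x ∈ S, G (U.mkQ x) = (Fintype.card F : ℝ) * ∑ y ∈ T, G y := by
  classical
  rw [← Finset.sum_fiberwise_of_maps_to (g := U.mkQ) (t := T) (fun x hx => (hST x).1 hx),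
    Finset.mul_sum]
  apply Finset.sum_congr rfl
  intro y hy
  have h1 : ∀ x ∈ S.filter (fun x => U.mkQ x = y), G (U.mkQ x) = G y := by
    intro x hx
    rw [(Finset.mem_filter.1 hx).2]
  rw [Finset.sum_congr rfl h1, Finset.sum_const, nsmul_eq_mul]
  congr 1
  obtain ⟨x0, hx0⟩ := Submodule.mkQ_surjective _ y
  have h2 : S.filter (fun x => U.mkQ x = y) = cos x0 U := by
    ext x
    rw [Finset.mem_filter, mem_cos, hST, ← hx0]
    constructor
    · rintro ⟨_, h⟩
      exact (Submodule.Quotient.eq _).1 h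
    · intro h
      have h3 : U.mkQ x = U.mkQ x0 := (Submodule.Quotient.eq _).2 h
      refine ⟨?_, h3⟩
      rw [h3, hx0]; exact hy
  rw [h2, card_cos, hU, pow_one]

/-- Transfer of the inequality to a quotient. -/
lemma step_quot {N κ : ℕ} {C' : ℝ} (h : KP N κ C')
    (F : Type) [Field F] [Fintype F] (E : Type) [AddCommGroup E] [Module F E] [Fintype E]
    (hE : finrank F E = N + 1) (a : Submodule F E → E) (u : E) (hu : u ≠ 0) (g : E → ℝ)
    (hg : ∀ x, 0 ≤ g x) (hinv : ∀ x (c : F), g (x + c • u) = g x)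
    (S : Finset (Submodule F E)) (hS : ∀ W ∈ S, W ∈ Gr F E (κ + 1) ∧ u ∈ W) :
    ∑ W ∈ S, ((∑ x ∈ cos (a W) W, g x ^ ((κ : ℝ) / N)) / (Fintype.card F : ℝ)) ^ N ≤
      C' * (Fintype.card F : ℝ) ^ (κ * (N - κ)) * ((∑ x, g x) / (Fintype.card F : ℝ)) ^ κ := by
  classical
  have hqpos : (0 : ℝ) < (Fintype.card F : ℝ) := by
    exact_mod_cast Fintype.card_pos
  obtain ⟨U, hU⟩ : ∃ U : Submodule F E, U = Submodule.span F {u} := ⟨_, rfl⟩
  have hUm : ∀ x, x ∈ U ↔ ∃ c : F, c • u = x := fun x => by
    rw [hU, Submodule.mem_span_singleton]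
  have hU1 : finrank F U = 1 := by rw [hU]; exact finrank_span_singleton hu
  have : Fintype (E ⧸ U) := Fintype.ofFinite _
  have : FiniteDimensional F E := Module.Finite.of_finite
  -- the function on the quotient
  choose sec hsec using Submodule.mkQ_surjective U
  set g' : E ⧸ U → ℝ := fun y => g (sec y) with hg'
  have hg'π : ∀ x, g' (U.mkQ x) = g x := by
    intro x
    have h1 : U.mkQ (sec (U.mkQ x)) = U.mkQ x := hsec _
    have h2 : sec (U.mkQ x) - x ∈ U := (Submodule.Quotient.eq _).1 h1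
    obtain ⟨c, hc⟩ := (hUm _).1 h2
    rw [hg']
    simp only
    have : sec (U.mkQ x) = x + c • u := by rw [hc]; abel
    rw [this, hinv]
  have hfr : finrank F (E ⧸ U) = N := by
    have h1 := Submodule.finrank_quotient_add_finrank U
    omega
  let a' : Submodule F (E ⧸ U) → E ⧸ U := fun W' => U.mkQ (a (W'.comap U.mkQ))
  have key := h F (E ⧸ U) hfr g' (fun y => hg _) a'
  -- right side
  have hR : ∑ y, g' y = (∑ x, g x) / (Fintype.card F : ℝ) := by
    have h1 := sum_fiber (F := F) U hU1 Finset.univ Finset.univ (fun x => by simp) g'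
    simp only [hg'π] at h1
    rw [h1]
    field_simp
  rw [hR] at key
  refine le_trans ?_ key
  -- left side
  have hcomap : ∀ W ∈ S, (W.map U.mkQ).comap U.mkQ = W := by
    intro W hW
    rw [Submodule.comap_map_eq, Submodule.ker_mkQ, sup_eq_left, hU,
      Submodule.span_singleton_le_iff_mem]
    exact (hS W hW).2
  have hL : ∀ W ∈ S, (∑ x ∈ cos (a W) W, g x ^ ((κ : ℝ) / N)) / (Fintype.card F : ℝ) =
      ∑ y ∈ cos (a' (W.map U.mkQ)) (W.map U.mkQ), g' y ^ ((κ : ℝ) / N) := by
    intro W hW
    have h1 := sum_fiber (F := F) U hU1 (cos (a W) W) (cos (a' (W.map U.mkQ)) (W.map U.mkQ))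
      (fun x => by
        rw [mem_cos, mem_cos]
        simp only [a', hcomap W hW]
        rw [← map_sub]
        conv_lhs => rw [← hcomap W hW]
        rw [Submodule.mem_comap, hcomap W hW]) (fun y => g' y ^ ((κ : ℝ) / N))
    simp only [hg'π] at h1
    rw [h1]
    field_simp
  rw [Finset.sum_congr rfl (fun W hW => by rw [hL W hW])]
  rw [← Finset.sum_image (s := S) (g := fun W => W.map U.mkQ)
    (f := fun W' => (∑ y ∈ cos (a' W') W', g' y ^ ((κ : ℝ) / N)) ^ N)]
  · apply Finset.sum_le_sum_of_subset_of_nonneg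
    · intro W' hW'
      rw [Finset.mem_image] at hW'
      obtain ⟨W, hW, rfl⟩ := hW'
      obtain ⟨h1, h2⟩ := hS W hW
      rw [mem_Gr] at h1 ⊢
      have h3 := (U.mkQ.domRestrict W).finrank_range_add_finrank_ker
      have h4 : LinearMap.range (U.mkQ.domRestrict W) = W.map U.mkQ := by
        rw [LinearMap.range_domRestrict]
      have h5 : LinearMap.ker (U.mkQ.domRestrict W) = Submodule.span F {(⟨u, h2⟩ : W)} := by
        ext x
        rw [LinearMap.mem_ker, LinearMap.domRestrict_apply, Submodule.mem_span_singleton,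
          Submodule.mkQ_apply, Submodule.Quotient.mk_eq_zero, hUm]
        constructor
        · rintro ⟨c, hc⟩; exact ⟨c, Subtype.ext hc⟩
        · rintro ⟨c, hc⟩; exact ⟨c, congrArg Subtype.val hc⟩
      have h6 : (⟨u, h2⟩ : W) ≠ 0 := fun h => hu (congrArg Subtype.val h)
      rw [h4, h5, finrank_span_singleton h6, h1] at h3
      omega
    · intro W' _ _
      exact pow_nonneg (Finset.sum_nonneg (fun _ _ => Real.rpow_nonneg (hg _) _)) _
  · intro W hW W' hW' hWW
    simp only at hWW
    rw [← hcomap W hW, ← hcomap W' hW', hWW]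

end Pool.Agent.LibKplane
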