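import Mathlib
import Pool.Agent.LibKplane.Quot

set_option autoImplicit false
set_option maxHeartbeats 1000000

open Module

namespace Pool.Agent.LibKplane

section

variable {F : Type*} [Field F] [Fintype F] {E : Type*} [AddCommGroup E] [Module F E] [Fintype E]

open Classical in
/-- The nonzero elements of `W`. -/
noncomputable def nz (W : Submodule F E) : Finset E := Finset.univ.filter (fun u => u ∈ W ∧ u ≠ 0)

omit [Fintype F] in
lemma mem_nz {W : Submodule F E} {u : E} : u ∈ nz W ↔ u ∈ W ∧ u ≠ 0 := by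
  classical
  simp [nz]

lemma card_nz (W : Submodule F E) : (nz W).card + 1 = (Fintype.card F) ^ finrank F W := by
  classical
  rw [← card_cos (0 : E) W]
  have h1 : cos (0 : E) W = insert 0 (nz W) := by
    ext x
    rw [mem_cos, Finset.mem_insert, mem_nz, sub_zero]
    constructor
    · intro h
      by_cases hx : x = 0
      · exact Or.inl hx
      · exact Or.inr ⟨h, hx⟩
    · rintro (h | h)
      · rw [h]; exact W.zero_mem
      · exact h.1
  rw [h1, Finset.card_insert_of_notMem]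
  rw [mem_nz]
  exact fun h => h.2 rfl

open Classical in
/-- The number of points of `A` on the line `y + F u`. -/
noncomputable def mult (A : Finset E) (u y : E) : ℕ :=
  (Finset.univ.filter (fun c : F => y + c • u ∈ A)).card

omit [Fintype E] in
lemma mult_eq_sum (A : Finset E) (u y : E) [DecidableEq E] :
    (mult (F := F) A u y : ℝ) = ∑ c : F, (if y + c • u ∈ A then (1 : ℝ) else 0) := by
  rw [mult, Finset.card_filter]
  push_cast
  rfl

omit [Fintype E] in
lemma mult_add (A : Finset E) (u y : E) (c : F) :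
    mult (F := F) A u (y + c • u) = mult (F := F) A u y := by
  classical
  rw [mult, mult]
  apply Finset.card_bij' (fun c' _ => c + c') (fun c' _ => c' - c)
  · intro c' hc'
    simp only [Finset.mem_filter, Finset.mem_univ, true_and] at hc' ⊢
    rw [add_smul, ← add_assoc]; exact hc'
  · intro c' hc'
    simp only [Finset.mem_filter, Finset.mem_univ, true_and] at hc' ⊢
    rw [sub_smul]
    have : y + c • u + (c' • u - c • u) = y + c' • u := by abel
    rw [this]; exact hc'
  · intro c' _; ring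
  · intro c' _; ring

omit [Fintype E] in
lemma mult_pos {A : Finset E} {u y : E} (hy : y ∈ A) : 0 < mult (F := F) A u y := by
  classical
  rw [mult, Finset.card_pos]
  exact ⟨0, by simpa using hy⟩

lemma sum_mult_le (A : Finset E) (y : E) (W : Submodule F E) :
    ∑ u ∈ nz W, (mult (F := F) A u y : ℝ) ≤
      (nz W).card + ((Fintype.card F : ℝ) - 1) * A.card := by
  classical
  simp only [mult_eq_sum]
  rw [Finset.sum_comm]
  rw [← Finset.add_sum_erase Finset.univ _ (Finset.mem_univ (0 : F))]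
  apply add_le_add
  · calc ∑ u ∈ nz W, (if y + (0 : F) • u ∈ A then (1 : ℝ) else 0) ≤ ∑ _u ∈ nz W, (1 : ℝ) := by
          apply Finset.sum_le_sum
          intro u _
          split_ifs <;> norm_num
      _ = (nz W).card := by simp
  · calc ∑ c ∈ Finset.univ.erase (0 : F), ∑ u ∈ nz W, (if y + c • u ∈ A then (1 : ℝ) else 0)
        ≤ ∑ _c ∈ Finset.univ.erase (0 : F), (A.card : ℝ) := by
          apply Finset.sum_le_sum
          intro c hc
          have hc0 : c ≠ 0 := Finset.ne_of_mem_erase hc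
          rw [Finset.sum_ite, Finset.sum_const_zero, add_zero, Finset.sum_const, nsmul_eq_mul,
            mul_one, Nat.cast_le]
          apply Finset.card_le_card_of_injOn (fun u => y + c • u)
          · intro u hu
            simp only [Finset.coe_filter, Set.mem_ofPred_eq] at hu
            exact hu.2
          · intro u _ v _ huv
            simp only [add_right_inj] at huv
            exact smul_right_injective E hc0 huv
      _ = _ := by
          rw [Finset.sum_const, nsmul_eq_mul, Finset.card_erase_of_mem (Finset.mem_univ _),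
            Finset.card_univ, Nat.cast_sub Fintype.card_pos, Nat.cast_one]

/-- `(q-1) q^κ ≤ q^(κ+1) - 1`. -/
lemma nz_lower {κ : ℕ} {W : Submodule F E} (hW : finrank F W = κ + 1) :
    ((Fintype.card F : ℝ) - 1) * (Fintype.card F : ℝ) ^ κ ≤ (nz W).card := by
  have h1 := card_nz W
  rw [hW] at h1
  have h2 : ((nz W).card : ℝ) + 1 = (Fintype.card F : ℝ) ^ (κ + 1) := by exact_mod_cast h1
  have h3 : (1 : ℝ) ≤ (Fintype.card F : ℝ) ^ κ := by
    apply one_le_pow₀
    exact_mod_cast Fintype.card_pos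
  have : ((Fintype.card F : ℝ) - 1) * (Fintype.card F : ℝ) ^ κ =
    (Fintype.card F : ℝ) ^ (κ + 1) - (Fintype.card F : ℝ) ^ κ := by ring
  rw [this]
  linarith

lemma line_ineq (a : E) (W : Submodule F E) (A : Finset E) (hA : A ⊆ cos a W) (h : E → ℝ)
    (hh : ∀ x, 0 ≤ h x) (α : ℝ) (hα : 0 ≤ α) (u : E) (hu : u ∈ W) :
    ∑ y ∈ A, h y ^ α / mult (F := F) A u y ≤
      (∑ x ∈ cos a W, (∑ c : F, h (x + c • u)) ^ α) / (Fintype.card F : ℝ) := by
  classical
  have hq : (0 : ℝ) < Fintype.card F := by exact_mod_cast Fintype.card_pos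
  rw [le_div_iff₀ hq]
  set g : E → ℝ := fun y => if y ∈ A then h y ^ α / mult (F := F) A u y else 0 with hg
  have h1 := sum_cos_lines (F := F) a W u hu g
  have h2 : ∑ x ∈ cos a W, g x = ∑ y ∈ A, h y ^ α / mult (F := F) A u y := by
    rw [hg]
    simp only
    rw [← Finset.sum_filter]
    apply Finset.sum_congr _ (fun _ _ => rfl)
    ext x
    rw [Finset.mem_filter]
    exact ⟨fun h => h.2, fun h => ⟨hA h, h⟩⟩
  rw [← h2, mul_comm, ← h1]
  apply Finset.sum_le_sum
  intro x _
  have h3 : ∀ c : F, g (x + c • u) =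
      (if x + c • u ∈ A then h (x + c • u) ^ α else 0) / mult (F := F) A u x := by
    intro c
    rw [hg]
    simp only
    rw [mult_add]
    split_ifs
    · rfl
    · simp
  rw [Finset.sum_congr rfl (fun c _ => h3 c), ← Finset.sum_div]
  set H := ∑ c : F, h (x + c • u) with hH
  have hH0 : 0 ≤ H := Finset.sum_nonneg (fun _ _ => hh _)
  rcases Nat.eq_zero_or_pos (mult (F := F) A u x) with h0 | h0
  · rw [h0]; simp only [Nat.cast_zero, div_zero]; exact Real.rpow_nonneg hH0 _
  · have h0' : (0 : ℝ) < mult (F := F) A u x := by exact_mod_cast h0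
    rw [div_le_iff₀ h0']
    calc ∑ c : F, (if x + c • u ∈ A then h (x + c • u) ^ α else 0)
        ≤ ∑ c : F, (if x + c • u ∈ A then H ^ α else 0) := by
          apply Finset.sum_le_sum
          intro c _
          split_ifs
          · apply Real.rpow_le_rpow (hh _) _ hα
            exact Finset.single_le_sum (f := fun c => h (x + c • u)) (fun _ _ => hh _)
              (Finset.mem_univ c)
          · exact le_rfl
      _ = H ^ α * mult (F := F) A u x := by
          rw [mult_eq_sum, Finset.mul_sum]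
          apply Finset.sum_congr rfl
          intro c _
          split_ifs <;> simp

/-- lower bound for the sum of the reciprocal multiplicities -/
lemma sum_inv_mult {κ : ℕ} {W : Submodule F E} (hW : finrank F W = κ + 1) (A : Finset E)
    (hA : A.card ≤ 4 * (Fintype.card F) ^ κ) (y : E) (hy : y ∈ A) :
    ((nz W).card : ℝ) / 5 ≤ ∑ u ∈ nz W, 1 / (mult (F := F) A u y : ℝ) := by
  classical
  set d : ℝ := ((nz W).card : ℝ) with hd
  have hq : (1 : ℝ) ≤ Fintype.card F := by exact_mod_cast Fintype.card_pos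
  have h1 := sum_mult_le (F := F) A y W
  have h2 := nz_lower (F := F) hW
  have h3 : (A.card : ℝ) ≤ 4 * (Fintype.card F : ℝ) ^ κ := by exact_mod_cast hA
  have h4 : ∑ u ∈ nz W, (mult (F := F) A u y : ℝ) ≤ 5 * d := by
    have : ((Fintype.card F : ℝ) - 1) * A.card ≤
        ((Fintype.card F : ℝ) - 1) * (4 * (Fintype.card F : ℝ) ^ κ) :=
      mul_le_mul_of_nonneg_left h3 (by linarith)
    rw [hd]
    linarith
  rcases (nz W).eq_empty_or_nonempty with he | hne
  · rw [hd, he]; simp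
  have hdpos : 0 < d := by rw [hd]; exact_mod_cast hne.card_pos
  have h5 := Finset.sq_sum_div_le_sum_sq_div (nz W) (fun _ => (1 : ℝ))
    (g := fun u => (mult (F := F) A u y : ℝ)) (fun u _ => by exact_mod_cast mult_pos hy)
  simp only [one_pow] at h5
  refine le_trans ?_ h5
  rw [Finset.sum_const, nsmul_eq_mul, mul_one, ← hd]
  have hs : 0 < ∑ u ∈ nz W, (mult (F := F) A u y : ℝ) := by
    apply Finset.sum_pos _ hne
    intro u _
    exact_mod_cast mult_pos hy
  rw [div_le_div_iff₀ (by norm_num) hs]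
  nlinarith

lemma TA_one {κ : ℕ} {W : Submodule F E} (hW : finrank F W = κ + 1) (a : E) (A : Finset E)
    (hA : A ⊆ cos a W) (hAc : A.card ≤ 4 * (Fintype.card F) ^ κ) (h : E → ℝ)
    (hh : ∀ x, 0 ≤ h x) (α : ℝ) (hα : 0 ≤ α) {N : ℕ} (hN : 1 ≤ N) :
    ((nz W).card : ℝ) * (∑ y ∈ A, h y ^ α) ^ N ≤ 5 ^ N *
      ∑ u ∈ nz W, ((∑ x ∈ cos a W, (∑ c : F, h (x + c • u)) ^ α) / (Fintype.card F : ℝ)) ^ N := by
  classical
  set d : ℝ := ((nz W).card : ℝ) with hd
  set Y : E → ℝ := fun u => (∑ x ∈ cos a W, (∑ c : F, h (x + c • u)) ^ α) / (Fintype.card F : ℝ)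
    with hY
  have hY0 : ∀ u, 0 ≤ Y u := fun u =>
    div_nonneg (Finset.sum_nonneg (fun _ _ => Real.rpow_nonneg (Finset.sum_nonneg (fun _ _ => hh _)) _))
      (Nat.cast_nonneg _)
  have h1 : (∑ y ∈ A, h y ^ α) * (d / 5) ≤ ∑ u ∈ nz W, Y u := by
    calc (∑ y ∈ A, h y ^ α) * (d / 5) = ∑ y ∈ A, h y ^ α * (d / 5) := by rw [Finset.sum_mul]
      _ ≤ ∑ y ∈ A, h y ^ α * ∑ u ∈ nz W, 1 / (mult (F := F) A u y : ℝ) := by
          apply Finset.sum_le_sum
          intro y hy
          exact mul_le_mul_of_nonneg_left (sum_inv_mult hW A hAc y hy) (Real.rpow_nonneg (hh _) _)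
      _ = ∑ u ∈ nz W, ∑ y ∈ A, h y ^ α / mult (F := F) A u y := by
          rw [Finset.sum_comm]
          apply Finset.sum_congr rfl
          intro y _
          rw [Finset.mul_sum]
          apply Finset.sum_congr rfl
          intro u _
          rw [mul_one_div]
      _ ≤ ∑ u ∈ nz W, Y u := by
          apply Finset.sum_le_sum
          intro u hu
          exact line_ineq a W A hA h hh α hα u (mem_nz.1 hu).1
  rcases (nz W).eq_empty_or_nonempty with he | hne
  · rw [hd, he]; simp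
  have hdpos : 0 < d := by rw [hd]; exact_mod_cast hne.card_pos
  obtain ⟨M, rfl⟩ : ∃ M, N = M + 1 := ⟨N - 1, by omega⟩
  have h3 := pow_sum_div_card_le_sum_pow (s := nz W) (f := Y) (fun u _ => hY0 u) M
  rw [← hd] at h3
  rw [div_le_iff₀ (by positivity)] at h3
  have hS0 : 0 ≤ ∑ y ∈ A, h y ^ α := Finset.sum_nonneg (fun _ _ => Real.rpow_nonneg (hh _) _)
  have h4 : ((∑ y ∈ A, h y ^ α) * (d / 5)) ^ (M + 1) ≤ (∑ u ∈ nz W, Y u) ^ (M + 1) :=
    pow_le_pow_left₀ (by positivity) h1 _
  have h5 := h4.trans h3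
  have h6 : ((∑ y ∈ A, h y ^ α) * (d / 5)) ^ (M + 1) =
      (d * (∑ y ∈ A, h y ^ α) ^ (M + 1) / 5 ^ (M + 1)) * d ^ M := by
    rw [mul_pow, div_pow]; ring
  rw [h6] at h5
  have h7 := le_of_mul_le_mul_right h5 (by positivity)
  rw [div_le_iff₀ (by positivity)] at h7
  linarith

end

/-- Double counting. -/
lemma double_count {F : Type*} [Field F] [Fintype F] {E : Type*} [AddCommGroup E] [Module F E]
    [Fintype E] [DecidableEq E] (S : Finset (Submodule F E)) (Y : Submodule F E → E → ℝ)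
    [∀ u : E, DecidablePred (fun W : Submodule F E => u ∈ W)] :
    ∑ W ∈ S, ∑ u ∈ nz W, Y W u =
      ∑ u ∈ Finset.univ.filter (fun u : E => u ≠ 0), ∑ W ∈ S.filter (fun W => u ∈ W), Y W u := by
  apply Finset.sum_comm'
  intro W u
  simp only [mem_nz, Finset.mem_filter, Finset.mem_univ, true_and]
  tauto

/-- The sparse part. -/
lemma TA {N κ : ℕ} {C' : ℝ} (h : KP N κ C') (hC' : 0 ≤ C') (hκN : κ < N)
    (F : Type) [Field F] [Fintype F] (E : Type) [AddCommGroup E] [Module F E] [Fintype E]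
    (hE : finrank F E = N + 1) (w : E → ℝ) (hw : ∀ x, 0 ≤ w x) (a : Submodule F E → E)
    (A : Submodule F E → Finset E)
    (hA : ∀ W ∈ Gr F E (κ + 1), A W ⊆ cos (a W) W ∧ (A W).card ≤ 4 * (Fintype.card F) ^ κ) :
    ∑ W ∈ Gr F E (κ + 1), (∑ x ∈ A W, w x ^ (((κ : ℝ) + 1) / (N + 1))) ^ (N + 1) ≤
      (2 * 5 ^ N * C') * (Fintype.card F : ℝ) ^ ((κ + 1) * (N - κ)) * (∑ x, w x) ^ (κ + 1) := by
  classical
  have hN : 1 ≤ N := by omega
  have hN0 : (0 : ℝ) < N := by exact_mod_cast hN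
  set q : ℝ := (Fintype.card F : ℝ) with hq
  have hq2 : (2 : ℝ) ≤ q := by rw [hq]; exact_mod_cast Fintype.one_lt_card
  have hq0 : 0 < q := by linarith
  set α : ℝ := (κ : ℝ) / N with hα
  have hα0 : 0 ≤ α := by positivity
  set T := ∑ x, w x with hT
  have hT0 : 0 ≤ T := Finset.sum_nonneg (fun _ _ => hw _)
  have hfin : ∀ W ∈ Gr F E (κ + 1), ((nz W).card : ℝ) = q ^ (κ + 1) - 1 := by
    intro W hW
    rw [mem_Gr] at hW
    have h1 := card_nz W
    rw [hW] at h1
    have h2 : ((nz W).card : ℝ) + 1 = (Fintype.card F : ℝ) ^ (κ + 1) := by exact_mod_cast h1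
    rw [hq]; linarith
  -- Hölder
  have hH : ∀ W ∈ Gr F E (κ + 1), (∑ x ∈ A W, w x ^ (((κ : ℝ) + 1) / (N + 1))) ^ (N + 1) ≤
      T * (∑ x ∈ A W, w x ^ α) ^ N := by
    intro W _
    have h1 := holder (A W) (fun x => w x ^ (1 / ((N : ℝ) + 1))) (fun x => w x ^ ((κ : ℝ) / (N + 1)))
      (fun x _ => Real.rpow_nonneg (hw x) _) (fun x _ => Real.rpow_nonneg (hw x) _) hN
    have h2 : ∀ x, w x ^ (1 / ((N : ℝ) + 1)) * w x ^ ((κ : ℝ) / (N + 1)) =
        w x ^ (((κ : ℝ) + 1) / (N + 1)) := by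
      intro x
      rw [← Real.rpow_add_of_nonneg (hw x) (by positivity) (by positivity)]
      congr 1
      field_simp
      ring
    have h3 : ∀ x, (w x ^ (1 / ((N : ℝ) + 1))) ^ (N + 1) = w x := by
      intro x
      rw [← Real.rpow_natCast, ← Real.rpow_mul (hw x)]
      push_cast
      rw [one_div, inv_mul_cancel₀ (by positivity), Real.rpow_one]
    have h4 : ∀ x, (w x ^ ((κ : ℝ) / (N + 1))) ^ (((N : ℝ) + 1) / N) = w x ^ α := by
      intro x
      rw [← Real.rpow_mul (hw x)]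
      congr 1
      rw [hα]
      field_simp
    simp only [h2, h3, h4] at h1
    refine h1.trans ?_
    apply mul_le_mul_of_nonneg_right
    · rw [hT]
      exact Finset.sum_le_sum_of_subset_of_nonneg (Finset.subset_univ _) (fun x _ _ => hw x)
    · exact pow_nonneg (Finset.sum_nonneg (fun _ _ => Real.rpow_nonneg (hw _) _)) _
  set Y : Submodule F E → E → ℝ := fun W u =>
    ((∑ x ∈ cos (a W) W, (∑ c : F, w (x + c • u)) ^ α) / q) ^ N with hY
  have h1 : ∀ W ∈ Gr F E (κ + 1), (q ^ (κ + 1) - 1) *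
      (∑ x ∈ A W, w x ^ (((κ : ℝ) + 1) / (N + 1))) ^ (N + 1) ≤ T * (5 ^ N * ∑ u ∈ nz W, Y W u) := by
    intro W hW
    have h2 := TA_one (mem_Gr.1 hW) (a W) (A W) (hA W hW).1 (hA W hW).2 w hw α hα0 hN
    rw [hfin W hW] at h2
    have h3 : 0 ≤ q ^ (κ + 1) - 1 := by
      rw [← hfin W hW]; positivity
    calc (q ^ (κ + 1) - 1) * (∑ x ∈ A W, w x ^ (((κ : ℝ) + 1) / (N + 1))) ^ (N + 1)
        ≤ (q ^ (κ + 1) - 1) * (T * (∑ x ∈ A W, w x ^ α) ^ N) :=
          mul_le_mul_of_nonneg_left (hH W hW) h3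
      _ = T * ((q ^ (κ + 1) - 1) * (∑ x ∈ A W, w x ^ α) ^ N) := by ring
      _ ≤ _ := mul_le_mul_of_nonneg_left h2 hT0
  have h2 : (q ^ (κ + 1) - 1) * ∑ W ∈ Gr F E (κ + 1),
      (∑ x ∈ A W, w x ^ (((κ : ℝ) + 1) / (N + 1))) ^ (N + 1) ≤
      T * 5 ^ N * ∑ W ∈ Gr F E (κ + 1), ∑ u ∈ nz W, Y W u := by
    rw [Finset.mul_sum, Finset.mul_sum]
    apply Finset.sum_le_sum
    intro W hW
    have := h1 W hW
    linarith
  rw [double_count] at h2
  have h3 : ∀ u ∈ Finset.univ.filter (fun u : E => u ≠ 0),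
      ∑ W ∈ (Gr F E (κ + 1)).filter (fun W => u ∈ W), Y W u ≤
        C' * q ^ (κ * (N - κ)) * T ^ κ := by
    intro u hu
    have hu0 : u ≠ 0 := (Finset.mem_filter.1 hu).2
    have h4 := step_quot h F E hE a u hu0 (fun x => ∑ c : F, w (x + c • u))
      (fun x => Finset.sum_nonneg (fun _ _ => hw _)) (fun x c => by
        change ∑ c' : F, w (x + c • u + c' • u) = ∑ c' : F, w (x + c' • u)
        rw [← Equiv.sum_comp (Equiv.addLeft c) (fun c' => w (x + c' • u))]
        apply Finset.sum_congr rfl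
        intro c' _
        rw [Equiv.coe_addLeft, add_smul, ← add_assoc]) ((Gr F E (κ + 1)).filter (fun W => u ∈ W))
      (fun W hW => Finset.mem_filter.1 hW)
    refine h4.trans (le_of_eq ?_)
    rw [← hq]
    congr 2
    rw [Finset.sum_comm]
    have h5 : ∀ c : F, ∑ x, w (x + c • u) = T := by
      intro c
      rw [hT, ← Equiv.sum_comp (Equiv.addRight (c • u)) w]
      rfl
    rw [Finset.sum_congr rfl (fun c _ => h5 c), Finset.sum_const, nsmul_eq_mul, Finset.card_univ,
      ← hq]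
    field_simp
  have h4 : ∑ u ∈ Finset.univ.filter (fun u : E => u ≠ 0),
      ∑ W ∈ (Gr F E (κ + 1)).filter (fun W => u ∈ W), Y W u ≤
        q ^ (N + 1) * (C' * q ^ (κ * (N - κ)) * T ^ κ) := by
    refine (Finset.sum_le_sum h3).trans ?_
    rw [Finset.sum_const, nsmul_eq_mul]
    apply mul_le_mul_of_nonneg_right
    · have h5 : (Finset.univ.filter (fun u : E => u ≠ 0)).card ≤ Fintype.card E :=
        Finset.card_le_univ _
      have h6 : Fintype.card E = (Fintype.card F) ^ (N + 1) := by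
        rw [Module.card_eq_pow_finrank (K := F) (V := E), hE]
      rw [h6] at h5
      rw [hq]
      exact_mod_cast h5
    · positivity
  have h5 : q ^ (κ + 1) ≤ 2 * (q ^ (κ + 1) - 1) := by
    have : (2 : ℝ) ≤ q ^ (κ + 1) := by
      calc (2 : ℝ) ≤ q := hq2
        _ = q ^ 1 := (pow_one q).symm
        _ ≤ q ^ (κ + 1) := pow_le_pow_right₀ (by linarith) (by omega)
    linarith
  set Z := ∑ W ∈ Gr F E (κ + 1), (∑ x ∈ A W, w x ^ (((κ : ℝ) + 1) / (N + 1))) ^ (N + 1) with hZ
  have hZ0 : 0 ≤ Z := Finset.sum_nonneg (fun W _ =>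
    pow_nonneg (Finset.sum_nonneg (fun _ _ => Real.rpow_nonneg (hw _) _)) _)
  have h6 : q ^ (κ + 1) * Z ≤ 2 * (T * 5 ^ N * (q ^ (N + 1) * (C' * q ^ (κ * (N - κ)) * T ^ κ))) := by
    calc q ^ (κ + 1) * Z ≤ 2 * (q ^ (κ + 1) - 1) * Z := mul_le_mul_of_nonneg_right h5 hZ0
      _ = 2 * ((q ^ (κ + 1) - 1) * Z) := by ring
      _ ≤ 2 * (T * 5 ^ N * ∑ u ∈ Finset.univ.filter (fun u : E => u ≠ 0),
            ∑ W ∈ (Gr F E (κ + 1)).filter (fun W => u ∈ W), Y W u) :=
          mul_le_mul_of_nonneg_left h2 (by norm_num)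
      _ ≤ _ := by
          apply mul_le_mul_of_nonneg_left _ (by norm_num)
          apply mul_le_mul_of_nonneg_left h4 (by positivity)
  have h7 : 2 * (T * 5 ^ N * (q ^ (N + 1) * (C' * q ^ (κ * (N - κ)) * T ^ κ))) =
      q ^ (κ + 1) * ((2 * 5 ^ N * C') * q ^ ((κ + 1) * (N - κ)) * T ^ (κ + 1)) := by
    have e1 : q ^ (N + 1) = q ^ (κ + 1) * q ^ (N - κ) := by
      rw [← pow_add]; congr 1; omega
    have e2 : q ^ ((κ + 1) * (N - κ)) = q ^ (κ * (N - κ)) * q ^ (N - κ) := by
      rw [← pow_add]; congr 1; ring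
    rw [e1, e2]
    ring
  rw [h7] at h6
  exact le_of_mul_le_mul_left h6 (by positivity)

end Pool.Agent.LibKplane
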