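import Mathlib
import Pool.Agent.LibKplane.StepA

set_option autoImplicit false
set_option maxHeartbeats 1000000

open Module

namespace Pool.Agent.LibKplane

section

variable {F : Type*} [Field F] [Fintype F] {E : Type*} [AddCommGroup E] [Module F E] [Fintype E]

open Classical in
/-- Points on rich lines in the direction `u`. -/
noncomputable def rich (S : Finset E) (m b : ℕ) (u : E) : Finset E :=
  Finset.univ.filter (fun x => m ≤ 2 * b * mult (F := F) S u x)

lemma mem_rich {S : Finset E} {m b : ℕ} {u x : E} :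
    x ∈ rich (F := F) S m b u ↔ m ≤ 2 * b * mult (F := F) S u x := by
  classical
  simp [rich]

/-- One plane: average number of rich lines. -/
lemma dense_one {κ : ℕ} {W : Submodule F E} (hW : finrank F W = κ + 1) (a : E) (S : Finset E)
    (m : ℕ) (hm : 4 * (Fintype.card F) ^ κ ≤ m) [DecidableEq E] (hSm : m ≤ (S ∩ cos a W).card)
    {N : ℕ} (hN : 1 ≤ N) :
    ((nz W).card : ℝ) * ((Fintype.card F : ℝ) ^ κ / 5) ^ N ≤
      ∑ u ∈ nz W, (((cos a W ∩ rich (F := F) S m ((Fintype.card F) ^ κ) u).card : ℝ) /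
        (Fintype.card F : ℝ)) ^ N := by
  set q : ℝ := (Fintype.card F : ℝ) with hq
  have hq1 : (1 : ℝ) ≤ q := by rw [hq]; exact_mod_cast Fintype.card_pos
  have hq0 : 0 < q := by linarith
  set A := S ∩ cos a W with hA
  set d : ℝ := ((nz W).card : ℝ) with hd
  have hqn : (0 : ℝ) < q ^ κ := by positivity
  have hmR : 4 * q ^ κ ≤ (m : ℝ) := by rw [hq]; exact_mod_cast hm
  have hAR : (m : ℝ) ≤ A.card := by exact_mod_cast hSm
  have hA0 : (0 : ℝ) < A.card := by linarith
  have hAne : A.Nonempty := by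
    rw [← Finset.card_pos]; exact_mod_cast hA0
  have hmultA : ∀ u ∈ nz W, ∀ y ∈ A, mult (F := F) S u y = mult (F := F) A u y := by
    intro u hu y hy
    unfold mult
    congr 1
    ext c
    simp only [Finset.mem_filter, Finset.mem_univ, true_and, hA, Finset.mem_inter, mem_cos]
    constructor
    · intro h
      refine ⟨h, ?_⟩
      have h1 : y - a ∈ W := by
        rw [hA, Finset.mem_inter, mem_cos] at hy; exact hy.2
      have h2 : y + c • u - a = (y - a) + c • u := by abel
      rw [h2]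
      exact W.add_mem h1 (W.smul_mem c (mem_nz.1 hu).1)
    · exact fun h => h.1
  -- (i)
  set Z : E → ℝ := fun u => ∑ y ∈ A, (mult (F := F) S u y : ℝ) with hZ
  set γ : E → ℝ := fun u => (((cos a W ∩ rich (F := F) S m ((Fintype.card F) ^ κ) u).card : ℝ) / q)
    with hγ
  have hZpos : ∀ u, 0 < Z u := by
    intro u
    apply Finset.sum_pos _ hAne
    intro y hy
    exact_mod_cast mult_pos (F := F) (Finset.mem_inter.1 hy).1
  have h1 : ∀ u ∈ nz W, (A.card : ℝ) ^ 2 / 4 ≤ γ u * Z u := by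
    intro u hu
    have huW := (mem_nz.1 hu).1
    set R := rich (F := F) S m ((Fintype.card F) ^ κ) u with hR
    have e1 : ∑ x ∈ cos a W, (mult (F := F) S u x : ℝ) = q * A.card := by
      simp only [mult_eq_sum]
      rw [sum_cos_lines (F := F) a W u huW (fun y => if y ∈ S then (1 : ℝ) else 0)]
      rw [← Finset.sum_filter, Finset.sum_const, nsmul_eq_mul, mul_one, Finset.filter_mem_eq_inter,
        Finset.inter_comm, ← hA]
    have e2 : ∑ x ∈ cos a W, (mult (F := F) S u x : ℝ) ^ 2 = q * Z u := by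
      have h2 := sum_cos_lines (F := F) a W u huW
        (fun y => if y ∈ S then (mult (F := F) S u y : ℝ) else 0)
      rw [← Finset.sum_filter, Finset.filter_mem_eq_inter, Finset.inter_comm, ← hA] at h2
      rw [← hq] at h2
      rw [hZ]
      simp only
      rw [← h2]
      apply Finset.sum_congr rfl
      intro x _
      simp only [mult_add]
      rw [sq]
      nth_rw 1 [mult_eq_sum]
      rw [Finset.sum_mul]
      apply Finset.sum_congr rfl
      intro c _
      split_ifs <;> simp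
    have e3 : q * A.card / 2 ≤ ∑ x ∈ cos a W ∩ R, (mult (F := F) S u x : ℝ) := by
      have h2 : ∑ x ∈ cos a W \ R, (mult (F := F) S u x : ℝ) ≤ q * A.card / 2 := by
        calc ∑ x ∈ cos a W \ R, (mult (F := F) S u x : ℝ)
            ≤ ∑ _x ∈ cos a W \ R, (m : ℝ) / (2 * q ^ κ) := by
              apply Finset.sum_le_sum
              intro x hx
              rw [Finset.mem_sdiff, hR, mem_rich, not_le] at hx
              have h3 : ((2 * (Fintype.card F) ^ κ * mult (F := F) S u x : ℕ) : ℝ) ≤ (m : ℝ) :=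
                Nat.cast_le.2 hx.2.le
              push_cast at h3
              rw [le_div_iff₀ (by positivity)]
              rw [← hq] at h3
              linarith
          _ = ((cos a W \ R).card : ℝ) * ((m : ℝ) / (2 * q ^ κ)) := by
              rw [Finset.sum_const, nsmul_eq_mul]
          _ ≤ q ^ (κ + 1) * ((m : ℝ) / (2 * q ^ κ)) := by
              apply mul_le_mul_of_nonneg_right _ (by positivity)
              have h3 : (cos a W \ R).card ≤ (cos a W).card := Finset.card_le_card Finset.sdiff_subset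
              rw [card_cos, hW] at h3
              rw [hq]; exact_mod_cast h3
          _ = q * m / 2 := by
              rw [pow_succ]; field_simp
          _ ≤ q * A.card / 2 := by
              apply div_le_div_of_nonneg_right _ (by norm_num)
              exact mul_le_mul_of_nonneg_left hAR hq0.le
      have h3 := Finset.sum_inter_add_sum_sdiff (cos a W) R (fun x => (mult (F := F) S u x : ℝ))
      linarith
    have e4 : (∑ x ∈ cos a W ∩ R, (mult (F := F) S u x : ℝ)) ^ 2 ≤
        ((cos a W ∩ R).card : ℝ) * (q * Z u) := by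
      refine (sq_sum_le_card_mul_sum_sq).trans ?_
      apply mul_le_mul_of_nonneg_left _ (by positivity)
      rw [← e2]
      exact Finset.sum_le_sum_of_subset_of_nonneg Finset.inter_subset_left
        (fun x _ _ => sq_nonneg _)
    have e5 : (q * A.card / 2) ^ 2 ≤ ((cos a W ∩ R).card : ℝ) * (q * Z u) :=
      (pow_le_pow_left₀ (by positivity) e3 2).trans e4
    have e6 : γ u * Z u = ((cos a W ∩ R).card : ℝ) * (q * Z u) / q ^ 2 := by
      have e7 : γ u = ((cos a W ∩ R).card : ℝ) / q := rfl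
      rw [e7]; field_simp
    rw [e6, le_div_iff₀ (by positivity)]
    refine le_trans (le_of_eq ?_) e5
    ring
  -- (ii)
  have h2 : q ^ κ * ∑ u ∈ nz W, Z u ≤ 5 / 4 * d * (A.card : ℝ) ^ 2 := by
    have e1 : ∑ u ∈ nz W, Z u ≤ A.card * (d + (q - 1) * A.card) := by
      rw [hZ]
      simp only
      rw [Finset.sum_comm]
      calc ∑ y ∈ A, ∑ u ∈ nz W, (mult (F := F) S u y : ℝ)
          ≤ ∑ _y ∈ A, (d + (q - 1) * A.card) := by
            apply Finset.sum_le_sum
            intro y hy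
            rw [Finset.sum_congr rfl (fun u hu => by rw [hmultA u hu y hy])]
            exact sum_mult_le A y W
        _ = _ := by rw [Finset.sum_const, nsmul_eq_mul]
    have e2 := nz_lower (F := F) hW
    rw [← hq, ← hd] at e2
    have e3 : 4 * q ^ κ ≤ (A.card : ℝ) := hmR.trans hAR
    have hd0 : 0 ≤ d := by rw [hd]; positivity
    calc q ^ κ * ∑ u ∈ nz W, Z u ≤ q ^ κ * (A.card * (d + (q - 1) * A.card)) :=
          mul_le_mul_of_nonneg_left e1 hqn.le
      _ = (A.card : ℝ) * (d * q ^ κ + ((q - 1) * q ^ κ) * A.card) := by ring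
      _ ≤ (A.card : ℝ) * (d * (A.card / 4) + d * A.card) := by
          apply mul_le_mul_of_nonneg_left _ hA0.le
          apply add_le_add
          · apply mul_le_mul_of_nonneg_left _ hd0
            linarith
          · exact mul_le_mul_of_nonneg_right e2 hA0.le
      _ = _ := by ring
  -- (iii)
  have hγ0 : ∀ u, 0 ≤ γ u := fun u => div_nonneg (Nat.cast_nonneg _) hq0.le
  change d * (q ^ κ / 5) ^ N ≤ ∑ u ∈ nz W, γ u ^ N
  clear_value Z γ
  clear hZ hγ hmultA
  rcases (nz W).eq_empty_or_nonempty with he | hne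
  · rw [hd, he]; simp
  have hdpos : 0 < d := by rw [hd]; exact_mod_cast hne.card_pos
  have hZs : 0 < ∑ u ∈ nz W, Z u := Finset.sum_pos (fun u _ => hZpos u) hne
  have h3 : d * (q ^ κ / 5) ≤ ∑ u ∈ nz W, γ u := by
    have h5 := Finset.sq_sum_div_le_sum_sq_div (nz W) (fun _ => (1 : ℝ)) (g := Z)
      (fun u _ => hZpos u)
    simp only [one_pow, Finset.sum_const, nsmul_eq_mul, mul_one] at h5
    rw [← hd] at h5
    have h6 : ∑ u ∈ nz W, 1 / Z u ≤ ∑ u ∈ nz W, γ u * (4 / (A.card : ℝ) ^ 2) := by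
      have hgen : ∀ x z c : ℝ, 0 < z → 0 < c → c ^ 2 / 4 ≤ x * z → 1 / z ≤ x * (4 / c ^ 2) := by
        intro x z c hz hc hxz
        rw [div_le_iff₀ hz]
        have h8 : x * (4 / c ^ 2) * z = (x * z) * 4 / c ^ 2 := by ring
        rw [h8, le_div_iff₀ (by positivity)]
        linarith
      apply Finset.sum_le_sum
      intro u hu
      exact hgen _ _ _ (hZpos u) hA0 (h1 u hu)
    rw [← Finset.sum_mul] at h6
    have h7 := h5.trans h6
    rw [div_le_iff₀ hZs] at h7
    have h8 : d ^ 2 * q ^ κ ≤ (∑ u ∈ nz W, γ u) * (4 / (A.card : ℝ) ^ 2) *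
        (5 / 4 * d * (A.card : ℝ) ^ 2) := by
      have hγs : 0 ≤ ∑ u ∈ nz W, γ u := Finset.sum_nonneg (fun u _ => hγ0 u)
      calc d ^ 2 * q ^ κ ≤ (∑ u ∈ nz W, γ u) * (4 / (A.card : ℝ) ^ 2) * (∑ u ∈ nz W, Z u) * q ^ κ :=
            mul_le_mul_of_nonneg_right h7 hqn.le
        _ = (∑ u ∈ nz W, γ u) * (4 / (A.card : ℝ) ^ 2) * (q ^ κ * ∑ u ∈ nz W, Z u) := by ring
        _ ≤ _ := mul_le_mul_of_nonneg_left h2 (mul_nonneg hγs (by positivity))
    have h9 : ∀ x c e : ℝ, 0 < c → x * (4 / c ^ 2) * (5 / 4 * e * c ^ 2) = e * (5 * x) := by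
      intro x c e hc
      field_simp
    rw [h9 _ _ _ hA0, sq, mul_assoc] at h8
    have h10 := le_of_mul_le_mul_left h8 hdpos
    linarith
  -- (iv)
  obtain ⟨M, rfl⟩ : ∃ M, N = M + 1 := ⟨N - 1, by omega⟩
  have h4 := pow_sum_div_card_le_sum_pow (s := nz W) (f := γ) (fun u _ => hγ0 u) M
  rw [← hd, div_le_iff₀ (by positivity)] at h4
  have h5 := (pow_le_pow_left₀ (by positivity) h3 (M + 1)).trans h4
  have h6 : (d * (q ^ κ / 5)) ^ (M + 1) = (d * (q ^ κ / 5) ^ (M + 1)) * d ^ M := by
    rw [mul_pow]; ring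
  rw [h6] at h5
  exact le_of_mul_le_mul_right h5 (by positivity)

omit [Fintype F] in
lemma nz_top [DecidableEq E] : nz (⊤ : Submodule F E) = Finset.univ.filter (fun u : E => u ≠ 0) := by
  ext x; simp [mem_nz]

omit [Fintype F] in
lemma cos_top (a : E) : cos a (⊤ : Submodule F E) = Finset.univ := by
  ext x; simp [mem_cos]

/-- The bush bound. -/
lemma bush [DecidableEq E] (S : Finset E) (m κ : ℕ) (hm : 4 * (Fintype.card F) ^ κ ≤ m) :
    ∑ u ∈ Finset.univ.filter (fun u : E => u ≠ 0),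
      ((S ∩ rich (F := F) S m ((Fintype.card F) ^ κ) u).card : ℝ) * m ≤
      4 * (Fintype.card F : ℝ) ^ κ * (((Fintype.card F : ℝ) - 1) * (S.card : ℝ) ^ 2) := by
  set q : ℝ := (Fintype.card F : ℝ) with hq
  have hq1 : (1 : ℝ) ≤ q := by rw [hq]; exact_mod_cast Fintype.card_pos
  have hq0 : 0 < q := by linarith
  have hqn : (0 : ℝ) < q ^ κ := by positivity
  have hmR : 4 * q ^ κ ≤ (m : ℝ) := by rw [hq]; exact_mod_cast hm
  rw [← nz_top (F := F)]
  have h1 : ∀ u, ((S ∩ rich (F := F) S m ((Fintype.card F) ^ κ) u).card : ℝ) * m ≤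
      4 * q ^ κ * ∑ x ∈ S, ((mult (F := F) S u x : ℝ) - 1) := by
    intro u
    calc ((S ∩ rich (F := F) S m ((Fintype.card F) ^ κ) u).card : ℝ) * m
        = ∑ _x ∈ S ∩ rich (F := F) S m ((Fintype.card F) ^ κ) u, (m : ℝ) := by
          rw [Finset.sum_const, nsmul_eq_mul]
      _ ≤ ∑ x ∈ S ∩ rich (F := F) S m ((Fintype.card F) ^ κ) u,
            4 * q ^ κ * ((mult (F := F) S u x : ℝ) - 1) := by
          apply Finset.sum_le_sum
          intro x hx
          rw [Finset.mem_inter, mem_rich] at hx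
          have h2 : (m : ℝ) ≤ ((2 * (Fintype.card F) ^ κ * mult (F := F) S u x : ℕ) : ℝ) :=
            Nat.cast_le.2 hx.2
          push_cast at h2
          rw [← hq] at h2
          have h3 : 2 * q ^ κ * 2 ≤ 2 * q ^ κ * (mult (F := F) S u x : ℝ) := by linarith
          nlinarith
      _ ≤ ∑ x ∈ S, 4 * q ^ κ * ((mult (F := F) S u x : ℝ) - 1) := by
          apply Finset.sum_le_sum_of_subset_of_nonneg Finset.inter_subset_left
          intro x hx _
          have h2 : (1 : ℝ) ≤ (mult (F := F) S u x : ℝ) := by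
            exact_mod_cast mult_pos (F := F) hx
          have : 0 ≤ (mult (F := F) S u x : ℝ) - 1 := by linarith
          positivity
      _ = _ := by rw [Finset.mul_sum]
  refine (Finset.sum_le_sum (fun u _ => h1 u)).trans ?_
  rw [← Finset.mul_sum]
  apply mul_le_mul_of_nonneg_left _ (by positivity)
  rw [Finset.sum_comm]
  calc ∑ x ∈ S, ∑ u ∈ nz (⊤ : Submodule F E), ((mult (F := F) S u x : ℝ) - 1)
      ≤ ∑ _x ∈ S, (q - 1) * (S.card : ℝ) := by
        apply Finset.sum_le_sum
        intro x _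
        rw [Finset.sum_sub_distrib, Finset.sum_const, nsmul_eq_mul, mul_one]
        have := sum_mult_le (F := F) S x (⊤ : Submodule F E)
        linarith
    _ = _ := by rw [Finset.sum_const, nsmul_eq_mul]; ring

end

/-- The dense restricted estimate. -/
lemma dense {N κ : ℕ} {C' : ℝ} (h : KP N κ C') (hC' : 0 ≤ C') (hκ : 1 ≤ κ) (hκN : κ < N)
    (F : Type) [Field F] [Fintype F] (E : Type) [AddCommGroup E] [Module F E] [Fintype E]
    [DecidableEq E] (hE : finrank F E = N + 1) (a : Submodule F E → E) (S : Finset E) (m : ℕ)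
    (hm : 4 * (Fintype.card F) ^ κ ≤ m) (Ω : Finset (Submodule F E))
    (hΩ : ∀ W ∈ Ω, W ∈ Gr F E (κ + 1) ∧ m ≤ (S ∩ cos (a W) W).card) :
    (Ω.card : ℝ) * (m : ℝ) ^ (κ + 1) ≤ (5 ^ N * 2 ^ (κ + 2) * C') * (S.card : ℝ) ^ (κ + 1) := by
  classical
  have hN : 1 ≤ N := by omega
  set q : ℝ := (Fintype.card F : ℝ) with hq
  have hq2 : (2 : ℝ) ≤ q := by rw [hq]; exact_mod_cast Fintype.one_lt_card
  have hq0 : 0 < q := by linarith
  have hqn : (0 : ℝ) < q ^ κ := by positivity
  have hmR : 4 * q ^ κ ≤ (m : ℝ) := by rw [hq]; exact_mod_cast hm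
  have hm0 : (0 : ℝ) < m := by linarith
  set G : E → Finset E := fun u => rich (F := F) S m ((Fintype.card F) ^ κ) u with hG
  set Y : Submodule F E → E → ℝ := fun W u => (((cos (a W) W ∩ G u).card : ℝ) / q) ^ N with hY
  have h1 : ∀ W ∈ Ω, ((q - 1) * q ^ κ) * (q ^ κ / 5) ^ N ≤ ∑ u ∈ nz W, Y W u := by
    intro W hW
    obtain ⟨h2, h3⟩ := hΩ W hW
    have h4 := dense_one (mem_Gr.1 h2) (a W) S m hm h3 hN
    refine le_trans ?_ h4
    apply mul_le_mul_of_nonneg_right _ (by positivity)
    exact nz_lower (F := F) (mem_Gr.1 h2)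
  have h2 : (Ω.card : ℝ) * (((q - 1) * q ^ κ) * (q ^ κ / 5) ^ N) ≤
      ∑ W ∈ Ω, ∑ u ∈ nz W, Y W u := by
    rw [← nsmul_eq_mul]
    exact Finset.card_nsmul_le_sum _ _ _ h1
  rw [double_count] at h2
  have h3 : ∀ u ∈ Finset.univ.filter (fun u : E => u ≠ 0),
      ∑ W ∈ Ω.filter (fun W => u ∈ W), Y W u ≤
        C' * q ^ (κ * (N - κ)) * (((G u).card : ℝ) / q) ^ κ := by
    intro u hu
    have hu0 : u ≠ 0 := (Finset.mem_filter.1 hu).2
    have h4 := step_quot h F E hE a u hu0 (fun x => if x ∈ G u then (1 : ℝ) else 0)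
      (fun x => by split_ifs <;> norm_num) (fun x c => by
        have : (x + c • u ∈ G u) ↔ (x ∈ G u) := by
          rw [hG]; simp only [mem_rich, mult_add]
        simp only [this]) (Ω.filter (fun W => u ∈ W))
      (fun W hW => ⟨(hΩ W (Finset.mem_filter.1 hW).1).1, (Finset.mem_filter.1 hW).2⟩)
    rw [← hq] at h4
    have h5 : ∑ x : E, (if x ∈ G u then (1 : ℝ) else 0) = (G u).card := by
      rw [← Finset.sum_filter, Finset.sum_const, nsmul_eq_mul, mul_one]
      congr 2
      ext x; simp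
    rw [h5] at h4
    refine le_trans (le_of_eq ?_) h4
    apply Finset.sum_congr rfl
    intro W _
    rw [hY]
    simp only
    congr 2
    have h6 : ∀ x, (if x ∈ G u then (1 : ℝ) else 0) ^ ((κ : ℝ) / N) =
        (if x ∈ G u then (1 : ℝ) else 0) := by
      intro x
      split_ifs
      · exact Real.one_rpow _
      · apply Real.zero_rpow
        have : (0 : ℝ) < κ := by exact_mod_cast hκ
        have : (0 : ℝ) < N := by exact_mod_cast hN
        positivity
    rw [Finset.sum_congr rfl (fun x _ => h6 x), ← Finset.sum_filter, Finset.sum_const,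
      nsmul_eq_mul, mul_one, Finset.filter_mem_eq_inter]
  -- bound for the number of rich lines
  have h4 : ∀ u, ((G u).card : ℝ) / q ≤ (2 * q ^ κ / m) * ((S ∩ G u).card : ℝ) := by
    intro u
    have h5 : ((G u).card : ℝ) * m ≤ 2 * q ^ κ * (q * ((S ∩ G u).card : ℝ)) := by
      have h6 := sum_cos_lines (F := F) (0 : E) (⊤ : Submodule F E) u (Submodule.mem_top)
        (fun y => if y ∈ S ∩ G u then (1 : ℝ) else 0)
      rw [cos_top, ← hq] at h6
      have h7 : ∑ x : E, (if x ∈ S ∩ G u then (1 : ℝ) else 0) = (S ∩ G u).card := by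
        rw [← Finset.sum_filter, Finset.sum_const, nsmul_eq_mul, mul_one]
        congr 2
        ext x; simp
      rw [h7] at h6
      rw [← h6, Finset.mul_sum]
      have h8 : ∀ x : E, 2 * q ^ κ * ∑ c : F, (if x + c • u ∈ S ∩ G u then (1 : ℝ) else 0) =
          (if x ∈ G u then 2 * q ^ κ * (mult (F := F) S u x : ℝ) else 0) := by
        intro x
        have h9 : ∀ c : F, (x + c • u ∈ S ∩ G u) ↔ (x + c • u ∈ S ∧ x ∈ G u) := by
          intro c
          rw [Finset.mem_inter, hG]; simp only [mem_rich, mult_add]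
        simp only [h9]
        by_cases hx : x ∈ G u
        · rw [if_pos hx, mult_eq_sum]
          simp [hx]
        · rw [if_neg hx]
          simp [hx]
      rw [Finset.sum_congr rfl (fun x _ => h8 x), ← Finset.sum_filter]
      have h9 : Finset.univ.filter (fun x => x ∈ G u) = G u := by ext x; simp
      rw [h9]
      calc ((G u).card : ℝ) * m = ∑ _x ∈ G u, (m : ℝ) := by rw [Finset.sum_const, nsmul_eq_mul]
        _ ≤ _ := by
          apply Finset.sum_le_sum
          intro x hx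
          rw [hG] at hx
          simp only [mem_rich] at hx
          have h10 : (m : ℝ) ≤ ((2 * (Fintype.card F) ^ κ * mult (F := F) S u x : ℕ) : ℝ) :=
            Nat.cast_le.2 hx
          push_cast at h10
          exact h10
    rw [div_le_iff₀ hq0]
    have : 2 * q ^ κ / m * ((S ∩ G u).card : ℝ) * q = (2 * q ^ κ * (q * ((S ∩ G u).card : ℝ))) / m := by
      ring
    rw [this, le_div_iff₀ hm0]
    exact h5
  have h5 : ∀ u, (((G u).card : ℝ) / q) ^ κ ≤
      (2 * q ^ κ / m) ^ κ * ((S.card : ℝ) ^ (κ - 1) * ((S ∩ G u).card : ℝ)) := by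
    intro u
    refine (pow_le_pow_left₀ (by positivity) (h4 u) κ).trans ?_
    rw [mul_pow]
    apply mul_le_mul_of_nonneg_left _ (by positivity)
    obtain ⟨κ', rfl⟩ : ∃ κ', κ = κ' + 1 := ⟨κ - 1, by omega⟩
    rw [pow_succ, Nat.add_sub_cancel]
    apply mul_le_mul_of_nonneg_right _ (by positivity)
    apply pow_le_pow_left₀ (by positivity)
    exact_mod_cast Finset.card_le_card Finset.inter_subset_left
  have h6 := bush (F := F) S m κ hm
  rw [← hq, ← Finset.sum_mul] at h6
  have h7 : ∑ u ∈ Finset.univ.filter (fun u : E => u ≠ 0), ((S ∩ G u).card : ℝ) ≤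
      (4 * q ^ κ * ((q - 1) * (S.card : ℝ) ^ 2)) / m := by
    rw [le_div_iff₀ hm0]
    exact h6
  have h8 : (Ω.card : ℝ) * (((q - 1) * q ^ κ) * (q ^ κ / 5) ^ N) ≤
      C' * q ^ (κ * (N - κ)) * ((2 * q ^ κ / m) ^ κ * ((S.card : ℝ) ^ (κ - 1) *
        ((4 * q ^ κ * ((q - 1) * (S.card : ℝ) ^ 2)) / m))) := by
    refine h2.trans ((Finset.sum_le_sum h3).trans ?_)
    rw [← Finset.mul_sum]
    apply mul_le_mul_of_nonneg_left _ (by positivity)
    refine (Finset.sum_le_sum (fun u _ => h5 u)).trans ?_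
    rw [← Finset.mul_sum, ← Finset.mul_sum]
    apply mul_le_mul_of_nonneg_left _ (by positivity)
    apply mul_le_mul_of_nonneg_left h7 (by positivity)
  have hq1' : 0 < q - 1 := by linarith
  have h9 : (Ω.card : ℝ) * (((q - 1) * q ^ κ) * (q ^ κ / 5) ^ N) =
      ((q - 1) * (q ^ κ) ^ (N + 1) / (5 ^ N * (m : ℝ) ^ (κ + 1))) *
        ((Ω.card : ℝ) * (m : ℝ) ^ (κ + 1)) := by
    rw [div_pow, pow_succ (q ^ κ) N]
    field_simp
  have h10 : C' * q ^ (κ * (N - κ)) * ((2 * q ^ κ / m) ^ κ * ((S.card : ℝ) ^ (κ - 1) *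
        ((4 * q ^ κ * ((q - 1) * (S.card : ℝ) ^ 2)) / m))) =
      ((q - 1) * (q ^ κ) ^ (N + 1) / (5 ^ N * (m : ℝ) ^ (κ + 1))) *
        ((5 ^ N * 2 ^ (κ + 2) * C') * (S.card : ℝ) ^ (κ + 1)) := by
    have e1 : (q ^ κ) ^ (N + 1) = q ^ (κ * (N - κ)) * (q ^ κ) ^ (κ + 1) := by
      rw [← pow_mul, ← pow_mul, ← pow_add]
      congr 1
      rw [← mul_add]
      congr 1
      omega
    have e2 : (S.card : ℝ) ^ (κ + 1) = (S.card : ℝ) ^ (κ - 1) * (S.card : ℝ) ^ 2 := by
      rw [← pow_add]; congr 1; omega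
    rw [e1, e2, div_pow, mul_pow]
    field_simp
    ring
  rw [h9, h10] at h8
  exact le_of_mul_le_mul_left h8 (by positivity)

end Pool.Agent.LibKplane
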