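import Mathlib
import Pool.Agent.LibKplane.Dense

set_option autoImplicit false
set_option maxHeartbeats 1000000

open Module

namespace Pool.Agent.LibKplane

section rank

variable {E : Type*} [Fintype E]

lemma exists_sort (w : E → ℝ) : ∃ e : E ≃ Fin (Fintype.card E), ∀ x y, e x ≤ e y → w y ≤ w x := by
  classical
  let e0 := Fintype.equivFin E
  let f : Fin (Fintype.card E) → ℝ := fun i => - w (e0.symm i)
  refine ⟨e0.trans (Tuple.sort f).symm, ?_⟩
  intro x y hxy
  have h1 := Tuple.monotone_sort f hxy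
  simp only [Function.comp_apply, Equiv.trans_apply, Equiv.apply_symm_apply, f,
    Equiv.symm_apply_apply] at h1
  linarith

variable {M : ℕ} (e : E ≃ Fin M)

/-- The rank of `x` in `V`. -/
def rk (V : Finset E) (x : E) : ℕ := (V.filter (fun y => e y ≤ e x)).card

omit [Fintype E] in
lemma rk_lt {V : Finset E} {x y : E} (hy : y ∈ V) (h : e x < e y) : rk e V x < rk e V y := by
  unfold rk
  apply Finset.card_lt_card
  rw [Finset.ssubset_iff_of_subset]
  · refine ⟨y, ?_, ?_⟩
    · simp [hy]
    · simp [h]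
  · intro z hz
    rw [Finset.mem_filter] at hz ⊢
    exact ⟨hz.1, hz.2.trans h.le⟩

omit [Fintype E] in
lemma rk_inj (V : Finset E) : Set.InjOn (rk e V) V := by
  intro x hx y hy hxy
  rcases lt_trichotomy (e x) (e y) with h | h | h
  · exact absurd hxy (rk_lt e hy h).ne
  · exact e.injective h
  · exact absurd hxy (rk_lt e hx h).ne'

omit [Fintype E] in
lemma rk_pos {V : Finset E} {x : E} (hx : x ∈ V) : 1 ≤ rk e V x := by
  unfold rk
  rw [Nat.one_le_iff_ne_zero, ← Nat.pos_iff_ne_zero, Finset.card_pos]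
  exact ⟨x, by simp [hx]⟩

omit [Fintype E] in
lemma rk_le (V : Finset E) (x : E) : rk e V x ≤ V.card := Finset.card_filter_le _ _

/-- sums over initial segments -/
lemma sum_init (f : E → ℝ) (R : ℕ) :
    ∑ r ∈ Finset.range R, (if h : r < M then f (e.symm ⟨r, h⟩) else 0) =
      ∑ x ∈ Finset.univ.filter (fun x => (e x : ℕ) < R), f x := by
  classical
  have h1 : ∑ r ∈ Finset.range R, (if h : r < M then f (e.symm ⟨r, h⟩) else 0) =
      ∑ r ∈ (Finset.range R).filter (fun r => r < M),
        (if h : r < M then f (e.symm ⟨r, h⟩) else 0) := by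
    rw [Finset.sum_filter]
    apply Finset.sum_congr rfl
    intro r _
    by_cases h : r < M
    · simp [h]
    · simp [h]
  rw [h1]
  symm
  refine Finset.sum_bij (fun x _ => (e x : ℕ)) ?_ ?_ ?_ ?_
  · intro x hx
    simp only [Finset.mem_filter, Finset.mem_univ, true_and, Finset.mem_range] at hx ⊢
    exact ⟨hx, (e x).2⟩
  · intro x _ y _ hxy
    exact e.injective (Fin.ext hxy)
  · intro r hr
    simp only [Finset.mem_filter, Finset.mem_range] at hr
    refine ⟨e.symm ⟨r, hr.2⟩, ?_, ?_⟩
    · simp [hr.1]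
    · simp
  · intro x _
    simp

end rank

/-- The estimate for elements of a fixed rank. -/
lemma rank_est {N κ : ℕ} {C' : ℝ} (h : KP N κ C') (hC' : 0 ≤ C') (hκ : 1 ≤ κ) (hκN : κ < N)
    (F : Type) [Field F] [Fintype F] (E : Type) [AddCommGroup E] [Module F E] [Fintype E]
    (hE : finrank F E = N + 1) (a : Submodule F E → E) (w : E → ℝ)
    (hw : ∀ x, 0 ≤ w x) (M : ℕ) (e : E ≃ Fin M) (he : ∀ x y, e x ≤ e y → w y ≤ w x)
    (i : ℕ) (hi : 4 * (Fintype.card F) ^ κ ≤ i) :
    (i : ℝ) ^ (κ + 1) * ∑ W ∈ Gr F E (κ + 1),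
      ∑ x ∈ (cos (a W) W).filter (fun x => rk e (cos (a W) W) x = i), w x ^ (κ + 1) ≤
      (5 ^ N * 2 ^ (κ + 2) * C') * (κ + 1) * (∑ x, w x) ^ (κ + 1) := by
  classical
  set CR : ℝ := 5 ^ N * 2 ^ (κ + 2) * C' with hCR
  have hCR0 : 0 ≤ CR := by positivity
  have hi0 : 0 < i := by
    have : 0 < (Fintype.card F) ^ κ := pow_pos Fintype.card_pos _
    omega
  have hiR : (0 : ℝ) < (i : ℝ) ^ (κ + 1) := by
    have : (0 : ℝ) < i := by exact_mod_cast hi0
    positivity
  set T := ∑ x, w x with hT
  have hT0 : 0 ≤ T := Finset.sum_nonneg (fun _ _ => hw _)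
  set cE : E → ℝ := fun x => (((Gr F E (κ + 1)).filter
    (fun W => x ∈ cos (a W) W ∧ rk e (cos (a W) W) x = i)).card : ℝ) with hcE
  set φ : ℕ → ℝ := fun r => if h : r < M then w (e.symm ⟨r, h⟩) ^ (κ + 1) else 0 with hφ
  set c : ℕ → ℝ := fun r => if h : r < M then cE (e.symm ⟨r, h⟩) else 0 with hc
  set d : ℕ → ℝ := fun r => CR / (i : ℝ) ^ (κ + 1) *
    (((r : ℝ) + 1) ^ (κ + 1) - (r : ℝ) ^ (κ + 1)) with hd
  have hφ0 : ∀ r, 0 ≤ φ r := by
    intro r
    rw [hφ]; simp only
    split_ifs
    · exact pow_nonneg (hw _) _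
    · exact le_rfl
  have hφanti : Antitone φ := by
    intro r s hrs
    rw [hφ]; simp only
    by_cases hs : s < M
    · rw [dif_pos hs, dif_pos (lt_of_le_of_lt hrs hs)]
      apply pow_le_pow_left₀ (hw _)
      apply he
      simp [hrs]
    · rw [dif_neg hs]
      exact hφ0 r
  -- partial sums
  have hps : ∀ R, ∑ r ∈ Finset.range R, c r ≤ ∑ r ∈ Finset.range R, d r := by
    intro R
    have h1 : ∑ r ∈ Finset.range R, d r = CR / (i : ℝ) ^ (κ + 1) * (R : ℝ) ^ (κ + 1) := by
      rw [hd, ← Finset.mul_sum]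
      congr 1
      have h2 := Finset.sum_range_sub (fun r : ℕ => (r : ℝ) ^ (κ + 1)) R
      simp only [Nat.cast_add, Nat.cast_one, Nat.cast_zero] at h2
      rw [h2]
      simp
    rw [h1, hc, sum_init e cE R]
    set S : Finset E := Finset.univ.filter (fun x => (e x : ℕ) < R) with hS
    have hScard : S.card ≤ R := by
      have h3 : S.card ≤ (Finset.range R).card := by
        apply Finset.card_le_card_of_injOn (fun x => (e x : ℕ))
        · intro x hx
          rw [hS] at hx
          simpa using hx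
        · intro x _ y _ hxy
          exact e.injective (Fin.ext hxy)
      simpa using h3
    set Ω : Finset (Submodule F E) := (Gr F E (κ + 1)).filter
      (fun W => i ≤ (S ∩ cos (a W) W).card) with hΩ
    have h4 : ∑ x ∈ S, cE x ≤ Ω.card := by
      rw [hcE]
      simp only [Finset.card_filter]
      push_cast
      rw [Finset.sum_comm]
      have h5 : ((Ω.card : ℕ) : ℝ) = ∑ W ∈ Gr F E (κ + 1),
          (if i ≤ (S ∩ cos (a W) W).card then (1 : ℝ) else 0) := by
        rw [hΩ, Finset.card_filter]; push_cast; rfl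
      rw [h5]
      apply Finset.sum_le_sum
      intro W _
      have h6 : ∑ x ∈ S, (if x ∈ cos (a W) W ∧ rk e (cos (a W) W) x = i then (1 : ℝ) else 0) =
          ((S.filter (fun x => x ∈ cos (a W) W ∧ rk e (cos (a W) W) x = i)).card : ℝ) := by
        rw [Finset.card_filter]; push_cast; rfl
      rw [h6]
      have h7 : (S.filter (fun x => x ∈ cos (a W) W ∧ rk e (cos (a W) W) x = i)).card ≤ 1 := by
        rw [Finset.card_le_one]
        intro x hx y hy
        rw [Finset.mem_filter] at hx hy
        exact rk_inj e (cos (a W) W) hx.2.1 hy.2.1 (hx.2.2.trans hy.2.2.symm)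
      split_ifs with h8
      · exact_mod_cast h7
      · rw [← Nat.cast_zero, Nat.cast_le, Nat.le_zero, Finset.card_eq_zero, Finset.filter_eq_empty_iff]
        rintro x hx ⟨hx1, hx2⟩
        apply h8
        rw [← hx2]
        unfold rk
        apply Finset.card_le_card
        intro y hy
        rw [Finset.mem_filter] at hy
        rw [Finset.mem_inter]
        refine ⟨?_, hy.1⟩
        rw [hS, Finset.mem_filter] at hx ⊢
        refine ⟨Finset.mem_univ _, lt_of_le_of_lt ?_ hx.2⟩
        exact hy.2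
    have h5 := dense h hC' hκ hκN F E hE a S i hi Ω (fun W hW => Finset.mem_filter.1 hW)
    rw [← hCR] at h5
    refine h4.trans ?_
    rw [div_mul_eq_mul_div, le_div_iff₀ hiR]
    refine h5.trans ?_
    apply mul_le_mul_of_nonneg_left _ hCR0
    apply pow_le_pow_left₀ (by positivity)
    exact_mod_cast hScard
  have key := abel_le φ c d hφanti hφ0 hps M
  -- left side
  have hL : ∑ r ∈ Finset.range M, c r * φ r = ∑ W ∈ Gr F E (κ + 1),
      ∑ x ∈ (cos (a W) W).filter (fun x => rk e (cos (a W) W) x = i), w x ^ (κ + 1) := by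
    have h1 : ∀ r ∈ Finset.range M, c r * φ r =
        (if h : r < M then (fun x => cE x * w x ^ (κ + 1)) (e.symm ⟨r, h⟩) else 0) := by
      intro r hr
      rw [Finset.mem_range] at hr
      rw [hc, hφ]
      simp only [dif_pos hr]
    rw [Finset.sum_congr rfl h1, sum_init e (fun x => cE x * w x ^ (κ + 1)) M]
    have h2 : Finset.univ.filter (fun x => (e x : ℕ) < M) = Finset.univ := by
      ext x; simp
    rw [h2]
    have h3 : ∀ x, cE x * w x ^ (κ + 1) = ∑ W ∈ Gr F E (κ + 1),
        (if x ∈ cos (a W) W ∧ rk e (cos (a W) W) x = i then w x ^ (κ + 1) else 0) := by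
      intro x
      rw [hcE]
      simp only
      rw [← Finset.sum_filter, Finset.sum_const, nsmul_eq_mul]
    rw [Finset.sum_congr rfl (fun x _ => h3 x), Finset.sum_comm]
    apply Finset.sum_congr rfl
    intro W _
    rw [← Finset.sum_filter]
    apply Finset.sum_congr _ (fun _ _ => rfl)
    ext x
    simp only [Finset.mem_filter, Finset.mem_univ, true_and]
  -- right side
  have hR : ∑ r ∈ Finset.range M, d r * φ r ≤ CR / (i : ℝ) ^ (κ + 1) * ((κ + 1) * T ^ (κ + 1)) := by
    have h1 : ∀ r ∈ Finset.range M, d r * φ r ≤ CR / (i : ℝ) ^ (κ + 1) * ((κ + 1) * T ^ κ) *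
        (if h : r < M then w (e.symm ⟨r, h⟩) else 0) := by
      intro r hr
      rw [Finset.mem_range] at hr
      rw [hd, hφ]
      simp only [dif_pos hr]
      set x := e.symm ⟨r, hr⟩ with hx
      have hex : e x = ⟨r, hr⟩ := by rw [hx]; simp
      have h2 : ((r : ℝ) + 1) * w x ≤ T := by
        have h3 : (Finset.univ.filter (fun y => e y ≤ e x)).card = r + 1 := by
          have h4 : (Finset.univ.filter (fun y => e y ≤ e x)).card =
              (Finset.univ.filter (fun j : Fin M => j ≤ e x)).card := by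
            apply Finset.card_bij' (fun y _ => e y) (fun j _ => e.symm j)
            · intro y hy; simpa using hy
            · intro j hj; simpa using hj
            · intro y _; simp
            · intro j _; simp
          rw [h4, hex]
          have h5 : Finset.univ.filter (fun j : Fin M => j ≤ ⟨r, hr⟩) = Finset.Iic ⟨r, hr⟩ := by
            ext j; simp
          rw [h5, Fin.card_Iic]
        calc ((r : ℝ) + 1) * w x = ∑ _y ∈ Finset.univ.filter (fun y => e y ≤ e x), w x := by
              rw [Finset.sum_const, h3, nsmul_eq_mul]; push_cast; rfl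
          _ ≤ ∑ y ∈ Finset.univ.filter (fun y => e y ≤ e x), w y := by
              apply Finset.sum_le_sum
              intro y hy
              exact he y x (Finset.mem_filter.1 hy).2
          _ ≤ T := Finset.sum_le_sum_of_subset_of_nonneg (Finset.subset_univ _) (fun y _ _ => hw y)
      have h3 := pow_succ_sub_le r κ
      have h4 : (((r : ℝ) + 1) * w x) ^ κ ≤ T ^ κ :=
        pow_le_pow_left₀ (mul_nonneg (by positivity) (hw x)) h2 κ
      have h5 : 0 ≤ CR / (i : ℝ) ^ (κ + 1) := div_nonneg hCR0 hiR.le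
      calc CR / (i : ℝ) ^ (κ + 1) * (((r : ℝ) + 1) ^ (κ + 1) - (r : ℝ) ^ (κ + 1)) * w x ^ (κ + 1)
          ≤ CR / (i : ℝ) ^ (κ + 1) * ((κ + 1) * ((r : ℝ) + 1) ^ κ) * w x ^ (κ + 1) := by
            apply mul_le_mul_of_nonneg_right _ (pow_nonneg (hw x) _)
            exact mul_le_mul_of_nonneg_left h3 h5
        _ = CR / (i : ℝ) ^ (κ + 1) * ((κ + 1) * (((r : ℝ) + 1) * w x) ^ κ) * w x := by
            rw [mul_pow]; ring
        _ ≤ CR / (i : ℝ) ^ (κ + 1) * ((κ + 1) * T ^ κ) * w x := by
            apply mul_le_mul_of_nonneg_right _ (hw x)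
            apply mul_le_mul_of_nonneg_left _ h5
            exact mul_le_mul_of_nonneg_left h4 (by positivity)
    refine (Finset.sum_le_sum h1).trans ?_
    rw [← Finset.mul_sum, sum_init e w M]
    have h2 : Finset.univ.filter (fun x => (e x : ℕ) < M) = Finset.univ := by
      ext x; simp
    rw [h2, ← hT]
    apply le_of_eq
    ring
  rw [hL] at key
  have hfin := key.trans hR
  calc (i : ℝ) ^ (κ + 1) * _ ≤ (i : ℝ) ^ (κ + 1) * (CR / (i : ℝ) ^ (κ + 1) * ((κ + 1) * T ^ (κ + 1))) :=
        mul_le_mul_of_nonneg_left hfin hiR.le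
    _ = CR * (κ + 1) * T ^ (κ + 1) := by
        field_simp

end Pool.Agent.LibKplane
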