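import Mathlib
import Pool.Agent.LibKplane.StepB

set_option autoImplicit false
set_option maxHeartbeats 1000000

open Module

namespace Pool.Agent.LibKplane

/-- The dense part. -/
lemma TB {N κ : ℕ} {C' : ℝ} (h : KP N κ C') (hC' : 0 ≤ C') (hκ : 1 ≤ κ) (hκN : κ < N)
    (F : Type) [Field F] [Fintype F] (E : Type) [AddCommGroup E] [Module F E] [Fintype E]
    (hE : finrank F E = N + 1) (a : Submodule F E → E) (w : E → ℝ)
    (hw : ∀ x, 0 ≤ w x) (M : ℕ) (e : E ≃ Fin M) (he : ∀ x y, e x ≤ e y → w y ≤ w x) :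
    ∑ W ∈ Gr F E (κ + 1), (∑ x ∈ (cos (a W) W).filter
      (fun x => 4 * (Fintype.card F) ^ κ < rk e (cos (a W) W) x),
        w x ^ (((κ : ℝ) + 1) / (N + 1))) ^ (N + 1) ≤
      ((5 ^ N * 2 ^ (κ + 2) * C') * (κ + 1) / (1 - ((κ : ℝ) + 1) / (N + 1)) ^ (N + 1)) *
        (Fintype.card F : ℝ) ^ ((κ + 1) * (N - κ)) * (∑ x, w x) ^ (κ + 1) := by
  classical
  have hN : 1 ≤ N := by omega
  have hNR : (0 : ℝ) < N := by exact_mod_cast hN
  set CR : ℝ := 5 ^ N * 2 ^ (κ + 2) * C' with hCR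
  have hCR0 : 0 ≤ CR := by positivity
  set T := ∑ x, w x with hT
  have hT0 : 0 ≤ T := Finset.sum_nonneg (fun _ _ => hw _)
  set s : ℝ := ((κ : ℝ) + 1) / (N + 1) with hs
  have hs0 : 0 < s := by positivity
  have hs1 : s < 1 := by
    rw [hs, div_lt_one (by positivity)]
    have : (κ : ℝ) < N := by exact_mod_cast hκN
    linarith
  set Q : ℕ := (Fintype.card F) ^ (κ + 1) with hQ
  have hQ0 : 0 < Q := pow_pos Fintype.card_pos _
  set Bd : ℝ := (Q : ℝ) ^ (1 - s) / (1 - s) with hBd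
  have hBd0 : 0 ≤ Bd := by
    rw [hBd]
    apply div_nonneg (Real.rpow_nonneg (by positivity) _)
    linarith
  set B : Submodule F E → Finset E := fun W => (cos (a W) W).filter
      (fun x => 4 * (Fintype.card F) ^ κ < rk e (cos (a W) W) x) with hB
  have hVc : ∀ W ∈ Gr F E (κ + 1), (cos (a W) W).card = Q := by
    intro W hW
    rw [card_cos, mem_Gr.1 hW]
  -- sums of powers of ranks
  have hrank : ∀ W ∈ Gr F E (κ + 1),
      ∑ x ∈ B W, ((rk e (cos (a W) W) x : ℕ) : ℝ) ^ (-s) ≤ Bd := by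
    intro W hW
    have h1 : ∑ x ∈ B W, ((rk e (cos (a W) W) x : ℕ) : ℝ) ^ (-s) =
        ∑ i ∈ (B W).image (rk e (cos (a W) W)), (i : ℝ) ^ (-s) := by
      rw [Finset.sum_image]
      intro x hx y hy hxy
      exact rk_inj e _ (Finset.mem_filter.1 hx).1 (Finset.mem_filter.1 hy).1 hxy
    rw [h1]
    refine le_trans ?_ (sum_rpow_le hs0 hs1 Q)
    have h2 : ∑ i ∈ Finset.range Q, ((i : ℝ) + 1) ^ (-s) =
        ∑ i ∈ ((Finset.range Q).image (fun i : ℕ => i + 1) : Finset ℕ), (i : ℝ) ^ (-s) := by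
      rw [Finset.sum_image]
      · apply Finset.sum_congr rfl
        intro i _
        push_cast; rfl
      · intro x _ y _ hxy
        simpa using hxy
    rw [h2]
    apply Finset.sum_le_sum_of_subset_of_nonneg
    · intro i hi
      rw [Finset.mem_image] at hi
      obtain ⟨x, hx, rfl⟩ := hi
      have hx1 := (Finset.mem_filter.1 hx).1
      have h3 := rk_pos e hx1
      have h4 := rk_le e (cos (a W) W) x
      rw [hVc W hW] at h4
      rw [Finset.mem_image]
      refine ⟨rk e (cos (a W) W) x - 1, ?_, ?_⟩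
      · rw [Finset.mem_range]; omega
      · omega
    · intro i _ _
      exact Real.rpow_nonneg (Nat.cast_nonneg i) _
  -- Hölder
  set θ : ℝ := s * (N / (N + 1)) with hθ
  have hH : ∀ W ∈ Gr F E (κ + 1), (∑ x ∈ B W, w x ^ s) ^ (N + 1) ≤
      (∑ x ∈ B W, ((rk e (cos (a W) W) x : ℕ) : ℝ) ^ (s * N) * w x ^ (κ + 1)) * Bd ^ N := by
    intro W hW
    have hrk : ∀ x ∈ B W, (0 : ℝ) < (rk e (cos (a W) W) x : ℕ) := by
      intro x hx
      have := rk_pos e (Finset.mem_filter.1 hx).1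
      exact_mod_cast this
    have h1 := holder (B W) (fun x => ((rk e (cos (a W) W) x : ℕ) : ℝ) ^ θ * w x ^ s)
      (fun x => ((rk e (cos (a W) W) x : ℕ) : ℝ) ^ (-θ))
      (fun x hx => mul_nonneg (Real.rpow_nonneg (hrk x hx).le _) (Real.rpow_nonneg (hw x) _))
      (fun x hx => Real.rpow_nonneg (hrk x hx).le _) hN
    have h2 : ∑ x ∈ B W, ((rk e (cos (a W) W) x : ℕ) : ℝ) ^ θ * w x ^ s *
        ((rk e (cos (a W) W) x : ℕ) : ℝ) ^ (-θ) = ∑ x ∈ B W, w x ^ s := by
      apply Finset.sum_congr rfl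
      intro x hx
      rw [Real.rpow_neg (hrk x hx).le]
      have := (Real.rpow_pos_of_pos (hrk x hx) θ).ne'
      field_simp
    have h3 : ∑ x ∈ B W, (((rk e (cos (a W) W) x : ℕ) : ℝ) ^ θ * w x ^ s) ^ (N + 1) =
        ∑ x ∈ B W, ((rk e (cos (a W) W) x : ℕ) : ℝ) ^ (s * N) * w x ^ (κ + 1) := by
      apply Finset.sum_congr rfl
      intro x hx
      rw [mul_pow]
      congr 1
      · rw [← Real.rpow_natCast, ← Real.rpow_mul (hrk x hx).le]
        congr 1
        rw [hθ]; push_cast; field_simp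
      · rw [← Real.rpow_natCast, ← Real.rpow_mul (hw x), ← Real.rpow_natCast]
        congr 1
        rw [hs]; push_cast; field_simp
    have h4 : ∑ x ∈ B W, (((rk e (cos (a W) W) x : ℕ) : ℝ) ^ (-θ)) ^ (((N : ℝ) + 1) / N) =
        ∑ x ∈ B W, ((rk e (cos (a W) W) x : ℕ) : ℝ) ^ (-s) := by
      apply Finset.sum_congr rfl
      intro x hx
      rw [← Real.rpow_mul (hrk x hx).le]
      congr 1
      rw [hθ]; field_simp
    rw [h2, h3, h4] at h1
    refine h1.trans ?_
    apply mul_le_mul_of_nonneg_left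
    · apply pow_le_pow_left₀
      · exact Finset.sum_nonneg (fun x hx => Real.rpow_nonneg (hrk x hx).le _)
      · exact hrank W hW
    · exact Finset.sum_nonneg (fun x hx =>
        mul_nonneg (Real.rpow_nonneg (hrk x hx).le _) (pow_nonneg (hw x) _))
  -- the weighted sum
  set I : Finset ℕ := (Finset.range Q).image (fun i => i + 1) with hI
  set J : Finset ℕ := I.filter (fun i => 4 * (Fintype.card F) ^ κ < i) with hJ
  have hsum : ∑ W ∈ Gr F E (κ + 1), ∑ x ∈ B W,
      ((rk e (cos (a W) W) x : ℕ) : ℝ) ^ (s * N) * w x ^ (κ + 1) ≤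
      CR * (κ + 1) * T ^ (κ + 1) * Bd := by
    have h1 : ∀ W ∈ Gr F E (κ + 1), ∑ x ∈ B W,
        ((rk e (cos (a W) W) x : ℕ) : ℝ) ^ (s * N) * w x ^ (κ + 1) =
        ∑ i ∈ J, (i : ℝ) ^ (s * N) *
          ∑ x ∈ (cos (a W) W).filter (fun x => rk e (cos (a W) W) x = i), w x ^ (κ + 1) := by
      intro W hW
      rw [← Finset.sum_fiberwise_of_maps_to (s := B W) (t := J) (g := rk e (cos (a W) W))]
      · apply Finset.sum_congr rfl
        intro i hi
        rw [Finset.mul_sum]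
        have h2 : (B W).filter (fun x => rk e (cos (a W) W) x = i) =
            (cos (a W) W).filter (fun x => rk e (cos (a W) W) x = i) := by
          ext x
          rw [hB]
          simp only [Finset.mem_filter]
          constructor
          · rintro ⟨⟨h3, _⟩, h4⟩; exact ⟨h3, h4⟩
          · rintro ⟨h3, h4⟩
            refine ⟨⟨h3, ?_⟩, h4⟩
            rw [h4]; exact (Finset.mem_filter.1 hi).2
        rw [h2]
        apply Finset.sum_congr rfl
        intro x hx
        rw [(Finset.mem_filter.1 hx).2]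
      · intro x hx
        have hx1 := (Finset.mem_filter.1 hx)
        have h3 := rk_pos e hx1.1
        have h4 := rk_le e (cos (a W) W) x
        rw [hVc W hW] at h4
        rw [hJ, Finset.mem_filter, hI, Finset.mem_image]
        refine ⟨⟨rk e (cos (a W) W) x - 1, ?_, ?_⟩, hx1.2⟩
        · rw [Finset.mem_range]; omega
        · omega
    rw [Finset.sum_congr rfl h1, Finset.sum_comm]
    have h2 : ∀ i ∈ J, ∑ W ∈ Gr F E (κ + 1), (i : ℝ) ^ (s * N) *
        ∑ x ∈ (cos (a W) W).filter (fun x => rk e (cos (a W) W) x = i), w x ^ (κ + 1) ≤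
        CR * (κ + 1) * T ^ (κ + 1) * (i : ℝ) ^ (-s) := by
      intro i hi
      have hi2 := (Finset.mem_filter.1 hi).2
      have hi0 : 0 < i := by omega
      have hiR : (0 : ℝ) < i := by exact_mod_cast hi0
      have h3 := rank_est h hC' hκ hκN F E hE a w hw M e he i hi2.le
      rw [← hCR, ← hT] at h3
      rw [← Finset.mul_sum]
      have h4 : (i : ℝ) ^ (s * N) = (i : ℝ) ^ (-s) * (i : ℝ) ^ (κ + 1) := by
        rw [← Real.rpow_natCast, ← Real.rpow_add hiR]
        congr 1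
        push_cast
        rw [hs]
        field_simp
        ring
      rw [h4, mul_assoc, mul_comm (CR * (κ + 1) * T ^ (κ + 1))]
      exact mul_le_mul_of_nonneg_left h3 (Real.rpow_nonneg hiR.le _)
    refine (Finset.sum_le_sum h2).trans ?_
    rw [← Finset.mul_sum]
    apply mul_le_mul_of_nonneg_left _ (by positivity)
    refine le_trans ?_ (sum_rpow_le hs0 hs1 Q)
    have h3 : ∑ i ∈ Finset.range Q, ((i : ℝ) + 1) ^ (-s) = ∑ i ∈ I, (i : ℝ) ^ (-s) := by
      rw [hI, Finset.sum_image]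
      · apply Finset.sum_congr rfl
        intro i _
        push_cast; rfl
      · intro x _ y _ hxy
        simpa using hxy
    rw [h3, hJ]
    apply Finset.sum_le_sum_of_subset_of_nonneg (Finset.filter_subset _ _)
    intro i _ _
    exact Real.rpow_nonneg (Nat.cast_nonneg i) _
  -- conclusion
  calc ∑ W ∈ Gr F E (κ + 1), (∑ x ∈ B W, w x ^ s) ^ (N + 1)
      ≤ ∑ W ∈ Gr F E (κ + 1),
        (∑ x ∈ B W, ((rk e (cos (a W) W) x : ℕ) : ℝ) ^ (s * N) * w x ^ (κ + 1)) * Bd ^ N :=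
        Finset.sum_le_sum hH
    _ = (∑ W ∈ Gr F E (κ + 1),
        ∑ x ∈ B W, ((rk e (cos (a W) W) x : ℕ) : ℝ) ^ (s * N) * w x ^ (κ + 1)) * Bd ^ N := by
        rw [Finset.sum_mul]
    _ ≤ (CR * (κ + 1) * T ^ (κ + 1) * Bd) * Bd ^ N :=
        mul_le_mul_of_nonneg_right hsum (pow_nonneg hBd0 _)
    _ = CR * (κ + 1) * T ^ (κ + 1) * Bd ^ (N + 1) := by ring
    _ = _ := by
        have h5 : Bd ^ (N + 1) = (Fintype.card F : ℝ) ^ ((κ + 1) * (N - κ)) / (1 - s) ^ (N + 1) := by
          rw [hBd, div_pow]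
          congr 1
          have hQR : (0 : ℝ) ≤ (Q : ℝ) := Nat.cast_nonneg _
          rw [← Real.rpow_natCast, ← Real.rpow_mul hQR]
          have h6 : (1 - s) * ((N + 1 : ℕ) : ℝ) = ((N - κ : ℕ) : ℝ) := by
            rw [Nat.cast_sub hκN.le, hs]
            push_cast
            field_simp
            ring
          rw [h6, Real.rpow_natCast, hQ]
          push_cast
          rw [← pow_mul]
        rw [h5]
        ring

/-- The constant in the inductive step. -/
noncomputable def stepC (N κ : ℕ) (C' : ℝ) : ℝ :=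
  2 ^ N * (2 * 5 ^ N * C' +
    (5 ^ N * 2 ^ (κ + 2) * C') * (κ + 1) / (1 - ((κ : ℝ) + 1) / (N + 1)) ^ (N + 1))

theorem KP_step {N κ : ℕ} {C' : ℝ} (h : KP N κ C') (hC' : 0 ≤ C') (hκ : 1 ≤ κ) (hκN : κ < N) :
    KP (N + 1) (κ + 1) (stepC N κ C') := by
  classical
  intro F _ _ E _ _ _ hE w hw a
  obtain ⟨e, he⟩ := exists_sort w
  have hs : (((κ + 1 : ℕ) : ℝ) / ((N + 1 : ℕ) : ℝ)) = ((κ : ℝ) + 1) / (N + 1) := by push_cast; rfl
  have hk : (κ + 1) * (N + 1 - (κ + 1)) = (κ + 1) * (N - κ) := by congr 1; omega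
  rw [hs, hk]
  set s : ℝ := ((κ : ℝ) + 1) / (N + 1) with hsdef
  set T := ∑ x, w x with hT
  have hA := TA h hC' hκN F E hE w hw a (fun W => (cos (a W) W).filter
      (fun x => rk e (cos (a W) W) x ≤ 4 * (Fintype.card F) ^ κ)) (by
    intro W _
    refine ⟨Finset.filter_subset _ _, ?_⟩
    have h1 : ((cos (a W) W).filter
        (fun x => rk e (cos (a W) W) x ≤ 4 * (Fintype.card F) ^ κ)).card ≤
        (Finset.Icc 1 (4 * (Fintype.card F) ^ κ)).card := by
      apply Finset.card_le_card_of_injOn (rk e (cos (a W) W))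
      · intro x hx
        rw [Finset.coe_filter] at hx
        rw [Finset.coe_Icc]
        exact ⟨rk_pos e hx.1, hx.2⟩
      · intro x hx y hy hxy
        rw [Finset.coe_filter] at hx hy
        exact rk_inj e _ hx.1 hy.1 hxy
    simpa using h1)
  have hB := TB h hC' hκ hκN F E hE a w hw _ e he
  rw [← hsdef, ← hT] at hA hB
  have hsplit : ∀ W, ∑ x ∈ cos (a W) W, w x ^ s =
      (∑ x ∈ (cos (a W) W).filter (fun x => rk e (cos (a W) W) x ≤ 4 * (Fintype.card F) ^ κ),
        w x ^ s) +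
      (∑ x ∈ (cos (a W) W).filter (fun x => 4 * (Fintype.card F) ^ κ < rk e (cos (a W) W) x),
        w x ^ s) := by
    intro W
    rw [← Finset.sum_filter_add_sum_filter_not (cos (a W) W)
      (fun x => rk e (cos (a W) W) x ≤ 4 * (Fintype.card F) ^ κ)]
    simp only [not_le]
  calc ∑ W ∈ Gr F E (κ + 1), (∑ x ∈ cos (a W) W, w x ^ s) ^ (N + 1)
      ≤ ∑ W ∈ Gr F E (κ + 1), 2 ^ N *
        ((∑ x ∈ (cos (a W) W).filter (fun x => rk e (cos (a W) W) x ≤ 4 * (Fintype.card F) ^ κ),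
          w x ^ s) ^ (N + 1) +
        (∑ x ∈ (cos (a W) W).filter (fun x => 4 * (Fintype.card F) ^ κ < rk e (cos (a W) W) x),
          w x ^ s) ^ (N + 1)) := by
        apply Finset.sum_le_sum
        intro W _
        rw [hsplit W]
        have := add_pow_le (a := ∑ x ∈ (cos (a W) W).filter
          (fun x => rk e (cos (a W) W) x ≤ 4 * (Fintype.card F) ^ κ), w x ^ s)
          (b := ∑ x ∈ (cos (a W) W).filter
          (fun x => 4 * (Fintype.card F) ^ κ < rk e (cos (a W) W) x), w x ^ s)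
          (Finset.sum_nonneg (fun x _ => Real.rpow_nonneg (hw x) _))
          (Finset.sum_nonneg (fun x _ => Real.rpow_nonneg (hw x) _)) (N + 1)
        rw [Nat.add_sub_cancel] at this
        exact this
    _ = 2 ^ N * (∑ W ∈ Gr F E (κ + 1),
        (∑ x ∈ (cos (a W) W).filter (fun x => rk e (cos (a W) W) x ≤ 4 * (Fintype.card F) ^ κ),
          w x ^ s) ^ (N + 1) +
        ∑ W ∈ Gr F E (κ + 1),
        (∑ x ∈ (cos (a W) W).filter (fun x => 4 * (Fintype.card F) ^ κ < rk e (cos (a W) W) x),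
          w x ^ s) ^ (N + 1)) := by
        rw [← Finset.mul_sum, Finset.sum_add_distrib]
    _ ≤ 2 ^ N * ((2 * 5 ^ N * C') * (Fintype.card F : ℝ) ^ ((κ + 1) * (N - κ)) * T ^ (κ + 1) +
        ((5 ^ N * 2 ^ (κ + 2) * C') * (κ + 1) / (1 - s) ^ (N + 1)) *
        (Fintype.card F : ℝ) ^ ((κ + 1) * (N - κ)) * T ^ (κ + 1)) := by
        apply mul_le_mul_of_nonneg_left (add_le_add hA hB) (by positivity)
    _ = _ := by
        rw [stepC]
        ring

lemma stepC_nonneg {N κ : ℕ} {C' : ℝ} (hC' : 0 ≤ C') (hκN : κ < N) : 0 ≤ stepC N κ C' := by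
  unfold stepC
  have h1 : 0 ≤ 1 - ((κ : ℝ) + 1) / (N + 1) := by
    rw [sub_nonneg, div_le_one (by positivity)]
    have : (κ : ℝ) < N := by exact_mod_cast hκN
    linarith
  positivity

theorem KP_all (k : ℕ) : ∀ n, k + 1 < n → ∃ C, 0 ≤ C ∧ KP n (k + 1) C := by
  induction k with
  | zero =>
    intro n hn
    obtain ⟨m, rfl⟩ : ∃ m, n = m + 1 := ⟨n - 1, by omega⟩
    exact ⟨(m + 1) * kakC m, mul_nonneg (by positivity) (kakC_pos m).le, KP_one m⟩
  | succ k ih =>
    intro n hn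
    obtain ⟨N, rfl⟩ : ∃ N, n = N + 1 := ⟨n - 1, by omega⟩
    obtain ⟨C', hC', h⟩ := ih N (by omega)
    exact ⟨stepC N (k + 1) C', stepC_nonneg hC' (by omega), KP_step h hC' (by omega) (by omega)⟩

end Pool.Agent.LibKplane
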