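import Mathlib
import Pool.Agent.LibKplane.Step

set_option autoImplicit false
set_option maxHeartbeats 1000000

open Module

namespace Pool.Agent.LibKplane

lemma card_Gr_lower (F : Type) [Field F] [Fintype F] (n k : ℕ) (hk : k < n) :
    (Fintype.card F) ^ (k * (n - k)) ≤
      Nat.card {W : Submodule F (Fin n → F) // Module.finrank F W = k} := by
  classical
  let θ : (Fin n → F) ≃ₗ[F] ((Fin k → F) × (Fin (n - k) → F)) :=
    LinearEquiv.ofFinrankEq _ _ (by
      rw [Module.finrank_prod]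
      simp only [Module.finrank_fin_fun]
      omega)
  have h1 : Nat.card ((Fin k → F) →ₗ[F] (Fin (n - k) → F)) = (Fintype.card F) ^ (k * (n - k)) := by
    rw [Module.natCard_eq_pow_finrank (K := F), Module.finrank_linearMap, Nat.card_eq_fintype_card]
    simp only [Module.finrank_fin_fun]
  rw [← h1]
  have hfr : ∀ L : (Fin k → F) →ₗ[F] (Fin (n - k) → F), finrank F L.graph = k := by
    intro L
    rw [LinearMap.graph_eq_range_prod, LinearMap.finrank_range_of_inj]
    · simp
    · intro x y hxy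
      exact congrArg Prod.fst hxy
  apply Nat.card_le_card_of_injective
    (fun L : (Fin k → F) →ₗ[F] (Fin (n - k) → F) =>
      (⟨L.graph.map (θ.symm : _ →ₗ[F] (Fin n → F)), by
        rw [LinearEquiv.finrank_map_eq θ.symm L.graph]
        exact hfr L⟩ : {W : Submodule F (Fin n → F) // Module.finrank F W = k}))
  intro L L' hLL
  have h2 : L.graph.map (θ.symm : _ →ₗ[F] (Fin n → F)) = L'.graph.map (θ.symm : _ →ₗ[F] (Fin n → F)) :=
    congrArg Subtype.val hLL
  have h3 : L.graph = L'.graph :=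
    Submodule.map_injective_of_injective (f := (θ.symm : _ →ₗ[F] (Fin n → F))) θ.symm.injective h2
  apply LinearMap.ext
  intro x
  have h4 : (x, L x) ∈ L.graph := by rw [LinearMap.mem_graph_iff]
  rw [h3, LinearMap.mem_graph_iff] at h4
  exact h4

theorem main (n k : ℕ) (hk0 : 0 < k) (hkn : k < n) : ∃ C : ℝ, 0 < C ∧
      ∀ (F : Type) [Field F] [Fintype F] (f : (Fin n → F) → ℝ),
        (∑ᶠ W : {W : Submodule F (Fin n → F) // Module.finrank F W = k},
            (⨆ a : Fin n → F, ∑ᶠ w : W.1, |f (a + (w : Fin n → F))|) ^ n)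
          ≤ C * (Nat.card {W : Submodule F (Fin n → F) // Module.finrank F W = k} : ℝ)
              * (∑ x : Fin n → F, |f x| ^ ((n : ℝ) / k)) ^ k := by
  classical
  obtain ⟨k', rfl⟩ : ∃ k', k = k' + 1 := ⟨k - 1, by omega⟩
  obtain ⟨C, hC, hKP⟩ := KP_all k' n hkn
  refine ⟨C + 1, by linarith, ?_⟩
  intro F _ _ f
  set k := k' + 1 with hk
  have hkR : (0 : ℝ) < k := by exact_mod_cast hk0
  have hnR : (0 : ℝ) < n := by
    have : 0 < n := by omega
    exact_mod_cast this
  set w : (Fin n → F) → ℝ := fun x => |f x| ^ ((n : ℝ) / k) with hw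
  have hw0 : ∀ x, 0 ≤ w x := fun x => Real.rpow_nonneg (abs_nonneg _) _
  have hwf : ∀ x, w x ^ ((k : ℝ) / n) = |f x| := by
    intro x
    rw [hw]
    simp only
    rw [← Real.rpow_mul (abs_nonneg _)]
    have : (n : ℝ) / k * (k / n) = 1 := by field_simp
    rw [this, Real.rpow_one]
  have hcoset : ∀ (W : Submodule F (Fin n → F)) (a : Fin n → F),
      ∑ᶠ v : W, |f (a + (v : Fin n → F))| = ∑ x ∈ cos a W, w x ^ ((k : ℝ) / n) := by
    intro W a
    rw [finsum_eq_sum_of_fintype]
    simp only [hwf]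
    symm
    refine Finset.sum_bij' (i := fun x hx => (⟨x - a, mem_cos.1 hx⟩ : W))
      (j := fun v _ => a + (v : Fin n → F)) ?_ ?_ ?_ ?_ ?_
    · intro x _; exact Finset.mem_univ _
    · intro v _
      rw [mem_cos]; simp
    · intro x _; simp
    · intro v _; simp
    · intro x _
      have : a + (x - a) = x := by abel
      simp only [this]
  have hsup : ∀ W : Submodule F (Fin n → F), ∃ a : Fin n → F,
      (⨆ a : Fin n → F, ∑ᶠ v : W, |f (a + (v : Fin n → F))|) =
        ∑ x ∈ cos a W, w x ^ ((k : ℝ) / n) := by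
    intro W
    obtain ⟨a, ha⟩ := exists_eq_ciSup_of_finite
      (f := fun a : Fin n → F => ∑ᶠ v : W, |f (a + (v : Fin n → F))|)
    exact ⟨a, by rw [← ha, hcoset]⟩
  choose a ha using hsup
  have hL : (∑ᶠ W : {W : Submodule F (Fin n → F) // Module.finrank F W = k},
      (⨆ a : Fin n → F, ∑ᶠ w : W.1, |f (a + (w : Fin n → F))|) ^ n) =
      ∑ W ∈ Gr F (Fin n → F) k, (∑ x ∈ cos (a W) W, w x ^ ((k : ℝ) / n)) ^ n := by
    rw [finsum_eq_sum_of_fintype]
    rw [Finset.sum_subtype (Gr F (Fin n → F) k) (p := fun W : Submodule F (Fin n → F) => Module.finrank F W = k)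
      (fun W => mem_Gr)]
    apply Finset.sum_congr rfl
    intro W _
    rw [ha W.1]
  rw [hL]
  have key := hKP F (Fin n → F) (by simp) w hw0 a
  refine key.trans ?_
  have hT0 : 0 ≤ (∑ x, w x) ^ k := pow_nonneg (Finset.sum_nonneg (fun x _ => hw0 x)) _
  apply mul_le_mul_of_nonneg_right _ hT0
  have h1 : (Fintype.card F : ℝ) ^ (k * (n - k)) ≤
      (Nat.card {W : Submodule F (Fin n → F) // Module.finrank F W = k} : ℝ) := by
    have := card_Gr_lower F n k hkn
    exact_mod_cast this
  have h2 : (0 : ℝ) ≤ (Fintype.card F : ℝ) ^ (k * (n - k)) := by positivity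
  calc C * (Fintype.card F : ℝ) ^ (k * (n - k)) ≤ (C + 1) * (Fintype.card F : ℝ) ^ (k * (n - k)) := by
        nlinarith
    _ ≤ _ := mul_le_mul_of_nonneg_left h1 (by linarith)

end Pool.Agent.LibKplane
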